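import Pool.Agent.Y892.UF.W8
import Pool.Agent.Q162.RU.G3
import Pool.Agent.Q162.RU.G4

/-!
# The density one theorems for all families
-/

set_option autoImplicit false

namespace Pool.Agent.Q162.RU

open Finset Filter Pool.Agent.H38R2.CG Pool.Agent.H38R2.CG2 Pool.Agent.H38R2.CG3
open Pool.Agent.H38R2.CG.FINh Pool.Agent.Y892.UF
open scoped Classical

theorem all_lim (a : ℝ) (ha : 2 < a) (Q : ℕ → ℕ → Prop) (hAS : ASQ a Q) (Exc : ℕ → Prop)
    (hex : EX Q Exc) :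
    Tendsto (fun X : ℕ =>
      (((Finset.Icc 2 X).filter (fun d => Squarefree d ∧ Exc d)).card : ℝ) / X)
      atTop (nhds 0) := by
  apply fin_all Exc
  intro δ hδ
  obtain ⟨η, hη, hη1, X0, hX0⟩ := short_all T2_TRIV a ha Q hAS δ hδ
  obtain ⟨X1, hX1⟩ := hex
  refine ⟨η, hη, hη1, max X0 X1, fun X hX => ?_⟩
  refine le_trans ?_ (hX0 X (le_trans (le_max_left _ _) hX))
  have hsub : ((Finset.Ioc X ⌊(1 + η) * (X : ℝ)⌋₊).filter
        (fun D => ∃ d : ℕ, 1 < d ∧ Squarefree d ∧ Exc d ∧ D = Dof d)) ⊆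
      (Finset.Ioc X ⌊(1 + η) * (X : ℝ)⌋₊).filter
        (fun D => IsFund D ∧ Q X D) := by
    intro D hD
    rw [Finset.mem_filter] at hD ⊢
    obtain ⟨hD1, d, hd1, hds, hg, rfl⟩ := hD
    refine ⟨hD1, ?_⟩
    refine hX1 X (le_trans (le_max_right _ _) hX) d hd1 hds hg (Finset.mem_Ioc.1 hD1).1 ?_
    have h1 := (Finset.mem_Ioc.1 hD1).2
    have h2 : ((⌊(1 + η) * (X : ℝ)⌋₊ : ℕ) : ℝ) ≤ (1 + η) * (X : ℝ) :=
      Nat.floor_le (by positivity)
    have h3 : (Dof d : ℝ) ≤ (⌊(1 + η) * (X : ℝ)⌋₊ : ℝ) := by exact_mod_cast h1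
    have h5 : (Dof d : ℝ) ≤ 2 * (X : ℝ) := by
      have : (0 : ℝ) ≤ X := by positivity
      nlinarith
    exact_mod_cast h5
  exact_mod_cast Finset.card_le_card hsub

theorem primes_lim (a : ℝ) (ha : 2 < a) (Q : ℕ → ℕ → Prop) (hAS : ASQ a Q) (Exc : ℕ → Prop)
    (hex : EX Q Exc) :
    Tendsto (fun X : ℕ => (((Finset.Ioc 0 X).filter (fun D => D.Prime ∧ Exc D)).card : ℝ) /
      (((Finset.Ioc 0 X).filter Nat.Prime).card : ℝ)) atTop (nhds 0) := by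
  have key : Tendsto (fun X : ℕ =>
      (((Finset.Icc 2 X).filter (fun p => p.Prime ∧ Exc p)).card : ℝ) /
        (((Finset.Icc 2 X).filter Nat.Prime).card : ℝ))
      atTop (nhds 0) := by
    apply fin_primes T_NB Exc
    intro δ hδ
    obtain ⟨η, hη, hη1, X0, hX0⟩ := short_primes BH_true T2_RC a ha Q hAS δ hδ
    obtain ⟨X1, hX1⟩ := hex
    refine ⟨η, hη, hη1, max X0 X1, fun X hX => ?_⟩
    refine le_trans ?_ (hX0 X (le_trans (le_max_left _ _) hX))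
    have hsub : ((Finset.Ioc X ⌊(1 + η) * (X : ℝ)⌋₊).filter
          (fun D => ∃ p : ℕ, p.Prime ∧ Exc p ∧ D = Dof p)) ⊆
        (Finset.Ioc X ⌊(1 + η) * (X : ℝ)⌋₊).filter
          (fun D => (∃ p : ℕ, p.Prime ∧ (D = p ∨ D = 4 * p)) ∧
            IsFund D ∧ Q X D) := by
      intro D hD
      rw [Finset.mem_filter] at hD ⊢
      obtain ⟨hD1, p, hp, hg, rfl⟩ := hD
      refine ⟨hD1, ⟨p, hp, ?_⟩, ?_⟩
      · unfold Dof
        split_ifs <;> simp
      refine hX1 X (le_trans (le_max_right _ _) hX) p hp.one_lt hp.squarefree hg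
        (Finset.mem_Ioc.1 hD1).1 ?_
      have h1 := (Finset.mem_Ioc.1 hD1).2
      have h2 : ((⌊(1 + η) * (X : ℝ)⌋₊ : ℕ) : ℝ) ≤ (1 + η) * (X : ℝ) :=
        Nat.floor_le (by positivity)
      have h3 : (Dof p : ℝ) ≤ (⌊(1 + η) * (X : ℝ)⌋₊ : ℝ) := by exact_mod_cast h1
      have h5 : (Dof p : ℝ) ≤ 2 * (X : ℝ) := by
        have : (0 : ℝ) ≤ X := by positivity
        nlinarith
      exact_mod_cast h5
    exact_mod_cast Finset.card_le_card hsub
  refine key.congr (fun X => ?_)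
  have e : ∀ f : ℕ → Prop, (∀ d, f d → 2 ≤ d) →
      ((Finset.Icc 2 X).filter f) = ((Finset.Ioc 0 X).filter f) := by
    intro f hf
    ext d
    simp only [mem_filter, mem_Icc, mem_Ioc]
    constructor
    · rintro ⟨⟨h1, h2⟩, h3⟩
      exact ⟨⟨by omega, h2⟩, h3⟩
    · rintro ⟨⟨h1, h2⟩, h3⟩
      exact ⟨⟨hf d h3, h2⟩, h3⟩
  congr 2
  · have := e (fun p => p.Prime ∧ Exc p) (fun d hd => hd.1.two_le)
    convert congrArg Finset.card this
  · have := e (fun p => p.Prime) (fun d hd => hd.two_le)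
    convert congrArg Finset.card this

theorem semis_lim (a : ℝ) (ha : 2 < a) (Q : ℕ → ℕ → Prop) (hAS : ASQ a Q) (Exc : ℕ → Prop)
    (hex : EX Q Exc) :
    Tendsto (fun X : ℕ => (((Finset.Ioc 0 X).filter (fun D => Semi D ∧ Exc D)).card : ℝ) /
      (((Finset.Ioc 0 X).filter Semi).card : ℝ)) atTop (nhds 0) :=
  semi_tendsto BH_true T2_RC a ha Q hAS Exc hex

theorem twos_lim (a : ℝ) (ha : 2 < a) (Q : ℕ → ℕ → Prop) (hAS : ASQ a Q) (Exc : ℕ → Prop)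
    (hex : EX Q Exc) :
    Tendsto (fun X : ℕ => (((Finset.Ioc 0 X).filter (fun D => Two D ∧ Exc D)).card : ℝ) /
      (((Finset.Ioc 0 X).filter Two).card : ℝ)) atTop (nhds 0) :=
  two_tendsto BH_true T2_RC a ha Q hAS Exc hex

end Pool.Agent.Q162.RU
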