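import Mathlib

/-!
# Elementary symmetric functions of numbers that are mostly equal to their bounds
-/

set_option autoImplicit false

namespace Pool.Agent.Q162.RU

open Finset
open scoped Classical

/-- elementary symmetric function -/
noncomputable def es {R : Type} [CommSemiring R] (P : Finset ℕ) (k : ℕ) (g : ℕ → R) : R :=
  ∑ s ∈ P.powersetCard k, ∏ p ∈ s, g p

theorem es_succ {R : Type} [CommRing R] (P : Finset ℕ) (k : ℕ) (g : ℕ → R) :
    ((k : R) + 1) * es P (k + 1) g =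
      ∑ s ∈ P.powersetCard k, (∏ p ∈ s, g p) * ∑ p ∈ P \ s, g p := by
  have h1 : ((k : R) + 1) * es P (k + 1) g =
      ∑ t ∈ P.powersetCard (k + 1), ∑ p ∈ t, ∏ q ∈ t, g q := by
    unfold es
    rw [mul_sum]
    refine sum_congr rfl fun t ht => ?_
    rw [sum_const, (mem_powersetCard.1 ht).2, nsmul_eq_mul]
    push_cast
    ring
  have h2 : ∑ s ∈ P.powersetCard k, (∏ p ∈ s, g p) * ∑ p ∈ P \ s, g p =
      ∑ s ∈ P.powersetCard k, ∑ p ∈ P \ s, ∏ q ∈ insert p s, g q := by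
    refine sum_congr rfl fun s hs => ?_
    rw [mul_sum]
    refine sum_congr rfl fun p hp => ?_
    rw [prod_insert (mem_sdiff.1 hp).2, mul_comm]
  rw [h1, h2, sum_sigma', sum_sigma']
  refine sum_bij' (fun z _ => ⟨z.1.erase z.2, z.2⟩) (fun z _ => ⟨insert z.2 z.1, z.2⟩)
    ?_ ?_ ?_ ?_ ?_
  · rintro ⟨t, p⟩ hz
    rw [mem_sigma] at hz
    obtain ⟨ht, hp⟩ := hz
    rw [mem_powersetCard] at ht
    simp only at ht hp
    rw [mem_sigma, mem_powersetCard, mem_sdiff]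
    refine ⟨⟨(erase_subset _ _).trans ht.1, ?_⟩, ht.1 hp, notMem_erase _ _⟩
    rw [card_erase_of_mem hp, ht.2]
    omega
  · rintro ⟨s, p⟩ hz
    rw [mem_sigma] at hz
    obtain ⟨hs, hp⟩ := hz
    rw [mem_powersetCard] at hs
    rw [mem_sdiff] at hp
    simp only at hs hp
    rw [mem_sigma, mem_powersetCard]
    refine ⟨⟨insert_subset hp.1 hs.1, ?_⟩, mem_insert_self _ _⟩
    rw [card_insert_of_notMem hp.2, hs.2]
  · rintro ⟨t, p⟩ hz
    rw [mem_sigma] at hz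
    simp only [insert_erase hz.2]
  · rintro ⟨s, p⟩ hz
    rw [mem_sigma, mem_sdiff] at hz
    simp only [erase_insert hz.2.2]
  · rintro ⟨t, p⟩ hz
    rw [mem_sigma] at hz
    simp only [insert_erase hz.2]

theorem es_nonneg (P : Finset ℕ) (k : ℕ) (x : ℕ → ℝ) (hx : ∀ p ∈ P, 0 ≤ x p) : 0 ≤ es P k x := by
  refine sum_nonneg fun s hs => prod_nonneg fun p hp => hx p ((mem_powersetCard.1 hs).1 hp)

theorem es_rec (P : Finset ℕ) (k : ℕ) (x : ℕ → ℝ) (hx : ∀ p ∈ P, 0 ≤ x p ∧ x p ≤ 2) (g : ℕ → ℂ)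
    (hg : ∀ p ∈ P, ‖g p‖ ≤ x p) :
    ‖((k : ℂ) + 1) * es P (k + 1) g - (∑ p ∈ P, g p) * es P k g‖ ≤ 2 * k * es P k x := by
  rw [es_succ]
  unfold es
  rw [mul_sum, mul_sum, ← sum_sub_distrib]
  refine (norm_sum_le _ _).trans ?_
  refine sum_le_sum fun s hs => ?_
  obtain ⟨hsP, hsk⟩ := mem_powersetCard.1 hs
  have e : ∑ p ∈ P \ s, g p = ∑ p ∈ P, g p - ∑ p ∈ s, g p := by
    rw [← sum_sdiff hsP]
    ring
  rw [e, show (∏ p ∈ s, g p) * (∑ p ∈ P, g p - ∑ p ∈ s, g p) - (∑ p ∈ P, g p) * ∏ p ∈ s, g p =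
    -((∏ p ∈ s, g p) * ∑ p ∈ s, g p) by ring, norm_neg, norm_mul, norm_prod]
  have h1 : ∏ p ∈ s, ‖g p‖ ≤ ∏ p ∈ s, x p :=
    prod_le_prod (fun p _ => norm_nonneg _) fun p hp => hg p (hsP hp)
  have h2 : ‖∑ p ∈ s, g p‖ ≤ 2 * k := by
    refine (norm_sum_le _ _).trans ?_
    calc ∑ p ∈ s, ‖g p‖ ≤ ∑ p ∈ s, (2 : ℝ) :=
          sum_le_sum fun p hp => (hg p (hsP hp)).trans (hx p (hsP hp)).2
      _ = 2 * k := by rw [sum_const, hsk, nsmul_eq_mul]; ring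
  calc (∏ p ∈ s, ‖g p‖) * ‖∑ p ∈ s, g p‖ ≤ (∏ p ∈ s, x p) * (2 * k) :=
        mul_le_mul h1 h2 (norm_nonneg _) (prod_nonneg fun p hp => (hx p (hsP hp)).1)
    _ = 2 * k * ∏ p ∈ s, x p := by ring

theorem es_step (P : Finset ℕ) (k : ℕ) (x : ℕ → ℝ) (hx : ∀ p ∈ P, 0 ≤ x p) :
    ((k : ℝ) + 1) * es P (k + 1) x ≤ (∑ p ∈ P, x p) * es P k x := by
  rw [es_succ]
  unfold es
  rw [mul_sum]
  refine sum_le_sum fun s hs => ?_
  obtain ⟨hsP, hsk⟩ := mem_powersetCard.1 hs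
  rw [mul_comm]
  refine mul_le_mul_of_nonneg_right ?_ (prod_nonneg fun p hp => hx p (hsP hp))
  exact sum_le_sum_of_subset_of_nonneg sdiff_subset fun p hp _ => hx p hp

theorem es_le (P : Finset ℕ) (k : ℕ) (x : ℕ → ℝ) (hx : ∀ p ∈ P, 0 ≤ x p) :
    (k.factorial : ℝ) * es P k x ≤ (∑ p ∈ P, x p) ^ k := by
  induction k with
  | zero => simp [es]
  | succ k ih =>
    have h1 := es_step P k x hx
    have h2 : 0 ≤ ∑ p ∈ P, x p := sum_nonneg hx
    have h3 : (0 : ℝ) ≤ (k.factorial : ℝ) := by positivity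
    calc ((k + 1).factorial : ℝ) * es P (k + 1) x
        = (k.factorial : ℝ) * (((k : ℝ) + 1) * es P (k + 1) x) := by
          rw [Nat.factorial_succ]; push_cast; ring
      _ ≤ (k.factorial : ℝ) * ((∑ p ∈ P, x p) * es P k x) := mul_le_mul_of_nonneg_left h1 h3
      _ = (∑ p ∈ P, x p) * ((k.factorial : ℝ) * es P k x) := by ring
      _ ≤ (∑ p ∈ P, x p) * (∑ p ∈ P, x p) ^ k := mul_le_mul_of_nonneg_left ih h2
      _ = (∑ p ∈ P, x p) ^ (k + 1) := by ring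

theorem es_near (P : Finset ℕ) (k : ℕ) (x : ℕ → ℝ) (hx : ∀ p ∈ P, 0 ≤ x p ∧ x p ≤ 2) (g : ℕ → ℂ)
    (hg : ∀ p ∈ P, ‖g p‖ ≤ x p) :
    ‖(k.factorial : ℂ) * es P k g - (∑ p ∈ P, g p) ^ k‖ ≤ (k : ℝ) ^ 2 * (∑ p ∈ P, x p) ^ (k - 1) := by
  have hX : 0 ≤ ∑ p ∈ P, x p := sum_nonneg fun p hp => (hx p hp).1
  have hL : ‖∑ p ∈ P, g p‖ ≤ ∑ p ∈ P, x p := (norm_sum_le _ _).trans (sum_le_sum hg)
  induction k with
  | zero => simp [es]
  | succ k ih =>
    have h1 := es_rec P k x hx g hg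
    have h2 := es_le P k x (fun p hp => (hx p hp).1)
    have e : ((k + 1).factorial : ℂ) * es P (k + 1) g - (∑ p ∈ P, g p) ^ (k + 1) =
        (k.factorial : ℂ) * (((k : ℂ) + 1) * es P (k + 1) g - (∑ p ∈ P, g p) * es P k g) +
        (∑ p ∈ P, g p) * ((k.factorial : ℂ) * es P k g - (∑ p ∈ P, g p) ^ k) := by
      rw [Nat.factorial_succ]; push_cast; ring
    rw [e]
    refine (norm_add_le _ _).trans ?_
    rw [norm_mul, norm_mul, Complex.norm_natCast, Nat.add_sub_cancel]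
    have h3 : (k.factorial : ℝ) * ‖((k : ℂ) + 1) * es P (k + 1) g - (∑ p ∈ P, g p) * es P k g‖ ≤
        2 * k * (∑ p ∈ P, x p) ^ k := by
      calc (k.factorial : ℝ) * ‖((k : ℂ) + 1) * es P (k + 1) g - (∑ p ∈ P, g p) * es P k g‖
          ≤ (k.factorial : ℝ) * (2 * k * es P k x) := mul_le_mul_of_nonneg_left h1 (by positivity)
        _ = 2 * k * ((k.factorial : ℝ) * es P k x) := by ring
        _ ≤ 2 * k * (∑ p ∈ P, x p) ^ k := mul_le_mul_of_nonneg_left h2 (by positivity)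
    have h4 : ‖∑ p ∈ P, g p‖ * ‖(k.factorial : ℂ) * es P k g - (∑ p ∈ P, g p) ^ k‖ ≤
        (k : ℝ) ^ 2 * (∑ p ∈ P, x p) ^ k := by
      rcases Nat.eq_zero_or_pos k with rfl | hk
      · simp [es]
      · calc ‖∑ p ∈ P, g p‖ * ‖(k.factorial : ℂ) * es P k g - (∑ p ∈ P, g p) ^ k‖
            ≤ (∑ p ∈ P, x p) * ((k : ℝ) ^ 2 * (∑ p ∈ P, x p) ^ (k - 1)) :=
              mul_le_mul hL ih (norm_nonneg _) hX
          _ = (k : ℝ) ^ 2 * (∑ p ∈ P, x p) ^ (k - 1 + 1) := by ring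
          _ = (k : ℝ) ^ 2 * (∑ p ∈ P, x p) ^ k := by rw [Nat.sub_add_cancel hk]
    have h5 : (0 : ℝ) ≤ (∑ p ∈ P, x p) ^ k := by positivity
    push_cast
    nlinarith

/-- If few of the numbers `g p` differ from their bounds `x p`, then the elementary symmetric
function of the numbers `g p` is large. -/
theorem es_large (P : Finset ℕ) (k : ℕ) (hk : 1 ≤ k) (x b : ℕ → ℝ)
    (hx : ∀ p ∈ P, 0 ≤ x p ∧ x p ≤ 2) (g : ℕ → ℂ) (hg : ∀ p ∈ P, ‖g p‖ ≤ x p)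
    (hb : ∀ p ∈ P, ‖(x p : ℂ) - g p‖ ≤ 2 * b p) (C : ℝ) (hC : 0 < C) (hkC : 16 * C ≤ k)
    (hT : (1 / 2 : ℝ) * (P.card.choose k : ℝ) ≤ es P k x)
    (hn : 8 * (k : ℝ) ^ 2 ≤ Real.exp (-(16 * C)) * P.card)
    (hB : k * ∑ p ∈ P, b p ≤ C * P.card) :
    Real.exp (-(16 * C)) / 2 * es P k x ≤ ‖es P k g‖ := by
  obtain ⟨X, hXd⟩ : ∃ X, X = ∑ p ∈ P, x p := ⟨_, rfl⟩
  obtain ⟨n, hnd⟩ : ∃ n, n = P.card := ⟨_, rfl⟩
  rw [← hnd] at hT hn hB
  have hk1 : (1 : ℝ) ≤ k := by exact_mod_cast hk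
  have he1 : Real.exp (-(16 * C)) ≤ 1 := Real.exp_le_one_iff.2 (by linarith)
  have he0 : 0 < Real.exp (-(16 * C)) := Real.exp_pos _
  have hnk : 8 * (k : ℝ) ≤ n := by
    have h1 : (k : ℝ) ≤ (k : ℝ) ^ 2 := by nlinarith
    have h2 : Real.exp (-(16 * C)) * n ≤ n := by
      have : (0 : ℝ) ≤ n := by positivity
      nlinarith
    linarith
  have hn0 : (0 : ℝ) < n := by linarith
  have hX0 : 0 ≤ X := by rw [hXd]; exact sum_nonneg fun p hp => (hx p hp).1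
  -- the sum of the bounds
  have hXk := es_le P k x (fun p hp => (hx p hp).1)
  rw [← hXd] at hXk
  have hkn : k ≤ n := by
    have : (k : ℝ) ≤ n := by linarith
    exact_mod_cast this
  have hdesc : (((n : ℝ) - k) / 2) ^ k ≤ X ^ k := by
    have h1 : (n + 1 - k) ^ k ≤ n.descFactorial k := Nat.pow_sub_le_descFactorial n k
    have h2 : n.descFactorial k = k.factorial * n.choose k := Nat.descFactorial_eq_factorial_mul_choose n k
    rw [h2] at h1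
    have h3 : (((n + 1 - k) ^ k : ℕ) : ℝ) ≤ (k.factorial : ℝ) * (n.choose k : ℝ) := by exact_mod_cast h1
    have h4 : ((n : ℝ) - k) ^ k ≤ (((n + 1 - k) ^ k : ℕ) : ℝ) := by
      rw [Nat.cast_pow, Nat.cast_sub (by omega)]
      push_cast
      refine pow_le_pow_left₀ (by linarith) (by linarith) k
    have h5 : (1 / 2 : ℝ) * ((k.factorial : ℝ) * (n.choose k : ℝ)) ≤ X ^ k := by
      refine le_trans ?_ hXk
      calc (1 / 2 : ℝ) * ((k.factorial : ℝ) * (n.choose k : ℝ)) =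
          (k.factorial : ℝ) * ((1 / 2 : ℝ) * (n.choose k : ℝ)) := by ring
        _ ≤ _ := mul_le_mul_of_nonneg_left hT (by positivity)
    have h6 : (1 / 2 : ℝ) ^ k ≤ 1 / 2 := by
      calc (1 / 2 : ℝ) ^ k ≤ (1 / 2 : ℝ) ^ 1 :=
            pow_le_pow_of_le_one (by norm_num) (by norm_num) hk
        _ = 1 / 2 := pow_one _
    have h7 : (0 : ℝ) ≤ ((n : ℝ) - k) ^ k := pow_nonneg (by linarith) k
    calc (((n : ℝ) - k) / 2) ^ k = (1 / 2 : ℝ) ^ k * ((n : ℝ) - k) ^ k := by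
          rw [div_pow, one_div, inv_pow]; ring
      _ ≤ 1 / 2 * ((n : ℝ) - k) ^ k := mul_le_mul_of_nonneg_right h6 h7
      _ ≤ 1 / 2 * ((k.factorial : ℝ) * (n.choose k : ℝ)) :=
          mul_le_mul_of_nonneg_left (h4.trans h3) (by norm_num)
      _ ≤ X ^ k := h5
  have hXn : ((n : ℝ) - k) / 2 ≤ X := by
    by_contra hcon
    push Not at hcon
    have := pow_lt_pow_left₀ hcon hX0 (by omega : k ≠ 0)
    linarith
  have hX4 : (n : ℝ) / 4 ≤ X := by linarith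
  have hXpos : 0 < X := by linarith
  -- the sum of the g
  obtain ⟨Λ, hΛ⟩ : ∃ Λ, Λ = ∑ p ∈ P, g p := ⟨_, rfl⟩
  have hΛ1 : X * (1 - 8 * C / k) ≤ ‖Λ‖ := by
    have h1 : ‖(X : ℂ) - Λ‖ ≤ 2 * ∑ p ∈ P, b p := by
      rw [hXd, hΛ]
      push_cast
      rw [← sum_sub_distrib]
      refine (norm_sum_le _ _).trans ?_
      rw [mul_sum]
      exact sum_le_sum hb
    have h2 : X - ‖Λ‖ ≤ ‖(X : ℂ) - Λ‖ := by
      have := norm_sub_norm_le (X : ℂ) Λ
      rwa [Complex.norm_real, Real.norm_eq_abs, abs_of_nonneg hX0] at this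
    have h3 : 2 * ∑ p ∈ P, b p ≤ X * (8 * C / k) := by
      have h4 : (k : ℝ) * (2 * ∑ p ∈ P, b p) ≤ k * (X * (8 * C / k)) := by
        have e : (k : ℝ) * (X * (8 * C / k)) = 8 * C * X := by field_simp
        rw [e]
        have h5 : 2 * C * n ≤ 8 * C * X := by nlinarith
        linarith
      exact le_of_mul_le_mul_left h4 (by linarith)
    linarith
  have hu0 : 0 ≤ 8 * C / k := by positivity
  have hu1 : 8 * C / k ≤ 1 / 2 := by
    rw [div_le_iff₀ (by linarith)]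
    linarith
  have hpow : X ^ k * Real.exp (-(16 * C)) ≤ ‖Λ‖ ^ k := by
    have h1 : Real.exp (-(2 * (8 * C / k))) ≤ 1 - 8 * C / k := by
      have h2 := Real.add_one_le_exp (2 * (8 * C / k))
      have h3 : 1 ≤ (1 - 8 * C / k) * (2 * (8 * C / k) + 1) := by nlinarith
      have h4 : 1 ≤ (1 - 8 * C / k) * Real.exp (2 * (8 * C / k)) := by
        refine h3.trans (mul_le_mul_of_nonneg_left h2 (by linarith))
      rw [Real.exp_neg]
      rw [inv_le_iff_one_le_mul₀ (Real.exp_pos _)]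
      exact h4
    have h5 : Real.exp (-(16 * C)) = (Real.exp (-(2 * (8 * C / k)))) ^ k := by
      rw [← Real.exp_nat_mul]
      congr 1
      field_simp
      ring
    rw [h5, ← mul_pow]
    refine pow_le_pow_left₀ (by positivity) ?_ k
    exact (mul_le_mul_of_nonneg_left h1 hX0).trans hΛ1
  have hnear := es_near P k x hx g hg
  rw [← hXd, ← hΛ] at hnear
  have h6 : ‖Λ ^ k‖ - (k : ℝ) ^ 2 * X ^ (k - 1) ≤ (k.factorial : ℝ) * ‖es P k g‖ := by
    have h7 := norm_sub_norm_le (Λ ^ k) ((k.factorial : ℂ) * es P k g)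
    rw [norm_sub_rev, norm_mul, Complex.norm_natCast] at h7
    linarith
  rw [norm_pow] at h6
  have h8 : (k : ℝ) ^ 2 * X ^ (k - 1) ≤ Real.exp (-(16 * C)) / 2 * X ^ k := by
    have e : X ^ k = X * X ^ (k - 1) := by
      rw [← pow_succ', Nat.sub_add_cancel hk]
    rw [e]
    have h9 : (k : ℝ) ^ 2 ≤ Real.exp (-(16 * C)) / 2 * X := by nlinarith
    calc (k : ℝ) ^ 2 * X ^ (k - 1) ≤ (Real.exp (-(16 * C)) / 2 * X) * X ^ (k - 1) :=
          mul_le_mul_of_nonneg_right h9 (by positivity)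
      _ = _ := by ring
  have h10 : Real.exp (-(16 * C)) / 2 * X ^ k ≤ (k.factorial : ℝ) * ‖es P k g‖ := by linarith
  have hf : (0 : ℝ) < (k.factorial : ℝ) := by positivity
  have h11 : (k.factorial : ℝ) * (Real.exp (-(16 * C)) / 2 * es P k x) ≤
      (k.factorial : ℝ) * ‖es P k g‖ := by
    refine le_trans ?_ h10
    calc (k.factorial : ℝ) * (Real.exp (-(16 * C)) / 2 * es P k x) =
        Real.exp (-(16 * C)) / 2 * ((k.factorial : ℝ) * es P k x) := by ring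
      _ ≤ _ := mul_le_mul_of_nonneg_left hXk (by positivity)
  exact le_of_mul_le_mul_left h11 hf

end Pool.Agent.Q162.RU
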