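import Pool.Agent.H38R2.CG.NF
import Pool.Agent.H38R2.CG3.Defs

/-!
# Multiplicative functions on the ideals with squarefree norm
-/

set_option autoImplicit false

namespace Pool.Agent.Q162.RU

open Finset NumberField Pool.Agent.H38R2.CG Pool.Agent.H38R2.CG.NFh
open scoped Classical

/-- the class of an ideal, and 1 for the zero ideal -/
noncomputable def cls {K : Type} [Field K] [NumberField K] (I : Ideal (𝓞 K)) : ClassGroup (𝓞 K) :=
  if h : I ∈ nonZeroDivisors (Ideal (𝓞 K)) then ClassGroup.mk0 ⟨I, h⟩ else 1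

theorem cls_mk {K : Type} [Field K] [NumberField K] (I : nonZeroDivisors (Ideal (𝓞 K))) :
    cls (I : Ideal (𝓞 K)) = ClassGroup.mk0 I := by
  unfold cls
  rw [dif_pos I.2]

theorem cls_mul {K : Type} [Field K] [NumberField K] {I J : Ideal (𝓞 K)} (hI : I ≠ 0)
    (hJ : J ≠ 0) : cls (I * J) = cls I * cls J := by
  have h := map_mul (ClassGroup.mk0 (R := 𝓞 K)) ⟨I, mem_nonZeroDivisors_of_ne_zero hI⟩
    ⟨J, mem_nonZeroDivisors_of_ne_zero hJ⟩
  rw [← cls_mk, ← cls_mk, ← cls_mk] at h
  exact h

theorem ne_zero_of_norm {K : Type} [Field K] [NumberField K] {n : ℕ} (hn : 0 < n)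
    {I : Ideal (𝓞 K)} (hI : Ideal.absNorm I = n) : I ≠ 0 := by
  rintro rfl
  rw [Ideal.zero_eq_bot, Ideal.absNorm_bot] at hI
  omega

theorem prime_of_norm {K : Type} [Field K] [NumberField K] {p : ℕ} (hp : p.Prime)
    {P : Ideal (𝓞 K)} (hP : Ideal.absNorm P = p) : Prime P := by
  have h1 : P.IsPrime := Ideal.isPrime_of_irreducible_absNorm (by rw [hP]; exact hp)
  exact Ideal.prime_of_isPrime (ne_zero_of_norm hp.pos hP) h1

theorem sum_mul_U {K : Type} [Field K] [NumberField K] (s : Finset ℕ) (hs : ∀ p ∈ s, p.Prime)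
    (p : ℕ) (hp : p.Prime) (hps : p ∉ s) (f : Ideal (𝓞 K) → ℂ)
    (hf : ∀ I J : Ideal (𝓞 K), I ≠ 0 → J ≠ 0 → f (I * J) = f I * f J) :
    ∑ I ∈ U K (p * prodS s), f I = (∑ P ∈ U K p, f P) * ∑ J ∈ U K (prodS s), f J := by
  have hs0 : 0 < prodS s := prodS_pos hs
  rw [sum_mul_sum, ← sum_product']
  symm
  refine sum_bij (fun z _ => z.1 * z.2) ?_ ?_ ?_ ?_
  · rintro ⟨P, J⟩ hz
    rw [mem_product, mem_U, mem_U] at hz
    rw [mem_U, map_mul, hz.1, hz.2]
  · rintro ⟨P, J⟩ hz ⟨P', J'⟩ hz' he
    rw [mem_product, mem_U, mem_U] at hz hz'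
    simp only at he hz hz'
    have hP := prime_of_norm hp hz.1
    have hP' := prime_of_norm hp hz'.1
    have hd : P ∣ P' * J' := ⟨J, he.symm⟩
    rcases hP.dvd_or_dvd hd with h | h
    · obtain ⟨L, hL⟩ := h
      have h1 : Ideal.absNorm P' = Ideal.absNorm P * Ideal.absNorm L := by rw [hL, map_mul]
      rw [hz.1, hz'.1] at h1
      have h2 : Ideal.absNorm L = 1 := by
        have := hp.pos
        nlinarith
      have h3 : L = ⊤ := Ideal.absNorm_eq_one_iff.1 h2
      have h4 : P' = P := by rw [hL, h3, Ideal.mul_top]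
      subst h4
      have h5 : J = J' := mul_left_cancel₀ hP.ne_zero he
      rw [h5]
    · exfalso
      have h1 : Ideal.absNorm P ∣ Ideal.absNorm J' := map_dvd Ideal.absNorm h
      rw [hz.1, hz'.2] at h1
      exact hps (mem_of_dvd hs hp h1)
  · intro I hI
    rw [mem_U] at hI
    have hI0 : I ≠ 0 := ne_zero_of_norm (Nat.mul_pos hp.pos hs0) hI
    have hprod : (UniqueFactorizationMonoid.normalizedFactors I).prod = I :=
      associated_iff_eq.1 (UniqueFactorizationMonoid.prod_normalizedFactors hI0)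
    have h1 : ((UniqueFactorizationMonoid.normalizedFactors I).map
        (fun P => Ideal.absNorm P)).prod = p * prodS s := by
      rw [← hI]
      conv_rhs => rw [← hprod]
      rw [map_multiset_prod]
    have h2 : p ∣ ((UniqueFactorizationMonoid.normalizedFactors I).map
        (fun P => Ideal.absNorm P)).prod := by
      rw [h1]
      exact dvd_mul_right _ _
    obtain ⟨Q, hQ, hpQ⟩ := hp.prime.exists_mem_multiset_map_dvd h2
    have hQp := UniqueFactorizationMonoid.prime_of_normalized_factor Q hQ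
    have hQI := UniqueFactorizationMonoid.dvd_of_mem_normalizedFactors hQ
    have hins : prodS (insert p s) = p * prodS s := by
      unfold prodS
      rw [prod_insert hps]
    have h3 : Ideal.absNorm Q ∈ insert p s := by
      refine norm_mem (A := I) ?_ (by rw [hI, hins]) hQp hQI
      intro q hq
      rcases mem_insert.1 hq with rfl | hq
      · exact hp
      · exact hs q hq
    have h4 : Ideal.absNorm Q = p := by
      have h5 : (Ideal.absNorm Q).Prime := by
        rcases mem_insert.1 h3 with h | h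
        · rw [h]; exact hp
        · exact hs _ h
      exact ((Nat.prime_dvd_prime_iff_eq hp h5).1 hpQ).symm
    obtain ⟨J, hJ⟩ := hQI
    have h6 : Ideal.absNorm J = prodS s := by
      have h7 : Ideal.absNorm I = Ideal.absNorm Q * Ideal.absNorm J := by rw [hJ, map_mul]
      rw [hI, h4] at h7
      exact (Nat.eq_of_mul_eq_mul_left hp.pos h7).symm
    refine ⟨(Q, J), ?_, hJ.symm⟩
    rw [mem_product, mem_U, mem_U]
    exact ⟨h4, h6⟩
  · rintro ⟨P, J⟩ hz
    rw [mem_product, mem_U, mem_U] at hz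
    exact (hf P J (ne_zero_of_norm hp.pos hz.1) (ne_zero_of_norm hs0 hz.2)).symm

theorem sum_U_prod {K : Type} [Field K] [NumberField K] (f : Ideal (𝓞 K) → ℂ) (h1 : f ⊤ = 1)
    (hf : ∀ I J : Ideal (𝓞 K), I ≠ 0 → J ≠ 0 → f (I * J) = f I * f J)
    (s : Finset ℕ) (hs : ∀ p ∈ s, p.Prime) :
    ∑ I ∈ U K (prodS s), f I = ∏ p ∈ s, ∑ P ∈ U K p, f P := by
  induction s using Finset.induction_on with
  | empty =>
    have e : U K (prodS ∅) = {⊤} := by
      ext I
      rw [mem_U, mem_singleton]
      unfold prodS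
      rw [prod_empty]
      exact Ideal.absNorm_eq_one_iff
    rw [e, sum_singleton, prod_empty, h1]
  | insert p s hps ih =>
    have hins : prodS (insert p s) = p * prodS s := by
      unfold prodS
      rw [prod_insert hps]
    rw [hins, sum_mul_U s (fun q hq => hs q (mem_insert_of_mem hq)) p
      (hs p (mem_insert_self p s)) hps f hf, prod_insert hps,
      ih (fun q hq => hs q (mem_insert_of_mem hq))]

/-- the number of ideals of norm `n` in a class -/
theorem card_cls {K : Type} [Field K] [NumberField K] {n : ℕ} (hn : 0 < n)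
    (C : ClassGroup (𝓞 K)) :
    Nat.card {I : nonZeroDivisors (Ideal (𝓞 K)) //
      Ideal.absNorm (I : Ideal (𝓞 K)) = n ∧ ClassGroup.mk0 I = C} =
      ((U K n).filter (fun I => cls I = C)).card := by
  have h : Nat.card {I : Ideal (𝓞 K) // I ∈ (U K n).filter (fun I => cls I = C)} =
      ((U K n).filter (fun I => cls I = C)).card := by
    rw [Nat.card_eq_fintype_card, Fintype.card_coe]
  rw [← h]
  refine Nat.card_congr ?_
  refine ⟨fun z => ⟨(z.1 : Ideal (𝓞 K)), ?_⟩, fun z => ⟨⟨z.1, ?_⟩, ?_⟩, ?_, ?_⟩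
  · rw [mem_filter, mem_U, cls_mk]
    exact z.2
  · have := z.2
    rw [mem_filter, mem_U] at this
    exact mem_nonZeroDivisors_of_ne_zero (ne_zero_of_norm hn this.1)
  · have := z.2
    rw [mem_filter, mem_U] at this
    refine ⟨this.1, ?_⟩
    rw [← cls_mk]
    exact this.2
  · intro z
    rfl
  · intro z
    rfl

end Pool.Agent.Q162.RU
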