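import Pool.Agent.Q162.RU.R1
import Pool.Agent.Q162.RU.R2

/-!
# Many tiny primes outside each proper subgroup of the class group
-/

set_option autoImplicit false

namespace Pool.Agent.Q162.RU

open Finset NumberField Pool.Agent.H38R2.CG Pool.Agent.H38R2.CG.NFh Pool.Agent.H38R2.CG3
open scoped Classical

theorem norm_char {G : Type} [CommGroup G] [Finite G] (χ : G →* ℂ) (c : G) : ‖χ c‖ = 1 := by
  refine Complex.norm_eq_one_of_pow_eq_one (n := Nat.card G) ?_ Nat.card_pos.ne'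
  rw [← map_pow, pow_card_eq_one', map_one]

/-- a character that is trivial on a proper subgroup -/
theorem exists_char {G : Type} [CommGroup G] [Finite G] (H : Subgroup G) (hH : H ≠ ⊤) :
    ∃ χ : G →* ℂ, (∀ c ∈ H, χ c = 1) ∧ ∃ c, χ c ≠ 1 := by
  obtain ⟨c, hc⟩ : ∃ c, c ∉ H := by
    by_contra hcon
    push Not at hcon
    exact hH ((Subgroup.eq_top_iff' H).2 hcon)
  have hc' : (QuotientGroup.mk' H c) ≠ 1 := by
    intro h
    exact hc ((QuotientGroup.eq_one_iff c).1 h)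
  obtain ⟨φ, hφ⟩ := CommGroup.exists_apply_ne_one_of_hasEnoughRootsOfUnity (G ⧸ H) ℂ hc'
  refine ⟨((Units.coeHom ℂ).comp φ).comp (QuotientGroup.mk' H), ?_, c, ?_⟩
  · intro d hd
    have : QuotientGroup.mk' H d = 1 := (QuotientGroup.eq_one_iff d).2 hd
    simp only [MonoidHom.comp_apply, this, map_one]
  · intro h
    apply hφ
    exact Units.ext h

theorem sum_char {G : Type} [CommGroup G] [Fintype G] (χ : G →* ℂ) (hχ : ∃ c, χ c ≠ 1) :
    ∑ c : G, χ c = 0 := by
  obtain ⟨d, hd⟩ := hχ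
  have h1 : χ d * ∑ c : G, χ c = ∑ c : G, χ c := by
    rw [mul_sum]
    simp only [← map_mul]
    exact Equiv.sum_comp (Equiv.mulLeft d) χ
  have h2 : (χ d - 1) * ∑ c : G, χ c = 0 := by
    rw [sub_mul, h1, one_mul, sub_self]
  rcases mul_eq_zero.1 h2 with h | h
  · exact absurd (sub_eq_zero.1 h) hd
  · exact h

theorem primes_of_mem {y k : ℕ} {s : Finset ℕ} (hs : s ∈ (PP y).powersetCard k) :
    ∀ p ∈ s, p.Prime := fun _ hp =>
  (mem_filter.1 ((mem_powersetCard.1 hs).1 hp)).2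

/-- the class counts against a character -/
theorem sum_cnt (K : Type) [Field K] [NumberField K] (y k : ℕ) (χ : ClassGroup (𝓞 K) →* ℂ) :
    ∑ C : ClassGroup (𝓞 K), (cnt K y k C : ℂ) * χ C =
      es (PP y) k (fun p => ∑ P ∈ U K p, χ (cls P)) := by
  unfold cnt es
  have h1 : ∀ C : ClassGroup (𝓞 K), ((∑ s ∈ (PP y).powersetCard k,
      Nat.card {I : nonZeroDivisors (Ideal (𝓞 K)) //
        Ideal.absNorm (I : Ideal (𝓞 K)) = prodS s ∧ ClassGroup.mk0 I = C} : ℕ) : ℂ) * χ C =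
      ∑ s ∈ (PP y).powersetCard k, ∑ I ∈ (U K (prodS s)).filter (fun I => cls I = C),
        χ (cls I) := by
    intro C
    push_cast
    rw [sum_mul]
    refine sum_congr rfl fun s hs => ?_
    rw [card_cls (prodS_pos (primes_of_mem hs)) C]
    rw [sum_congr rfl (g := fun _ => χ C) fun I hI => by rw [(mem_filter.1 hI).2]]
    rw [sum_const, nsmul_eq_mul]
  rw [sum_congr rfl fun C _ => h1 C, sum_comm]
  refine sum_congr rfl fun s hs => ?_
  rw [← sum_U_prod (fun I => χ (cls I)) ?_ ?_ s (primes_of_mem hs)]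
  · exact sum_fiberwise (U K (prodS s)) cls (fun I => χ (cls I))
  · have : cls (⊤ : Ideal (𝓞 K)) = 1 := by
      have h2 := cls_mk (K := K) 1
      rw [map_one] at h2
      have h3 : ((1 : nonZeroDivisors (Ideal (𝓞 K))) : Ideal (𝓞 K)) = ⊤ := by
        rw [Submonoid.coe_one, Ideal.one_eq_top]
      rwa [h3] at h2
    simp only [this, map_one]
  · intro I J hI hJ
    simp only [cls_mul hI hJ, map_mul]

theorem total (K : Type) [Field K] [NumberField K] (y k : ℕ) :
    ((∑ C : ClassGroup (𝓞 K), cnt K y k C : ℕ) : ℝ) = es (PP y) k (fun p => ((U K p).card : ℝ)) := by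
  have h := sum_cnt K y k 1
  simp only [MonoidHom.one_apply, mul_one, sum_const, nsmul_eq_mul] at h
  have h2 : (((∑ C : ClassGroup (𝓞 K), cnt K y k C : ℕ) : ℝ) : ℂ) =
      ((es (PP y) k (fun p => ((U K p).card : ℝ)) : ℝ) : ℂ) := by
    unfold es at h ⊢
    push_cast
    push_cast at h
    exact h
  exact_mod_cast h2

/-- the deviation from the uniform distribution -/
noncomputable def dev (K : Type) [Field K] [NumberField K] (y k : ℕ) (C : ClassGroup (𝓞 K)) : ℝ :=
  (cnt K y k C : ℝ) / ((∑ C' : ClassGroup (𝓞 K), cnt K y k C' : ℕ) : ℝ) -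
    1 / Nat.card (ClassGroup (𝓞 K))

theorem dev_sq (K : Type) [Field K] [NumberField K] (y k : ℕ) (ε : ℝ) (hE : Equi K y k ε) :
    (Nat.card (ClassGroup (𝓞 K)) : ℝ) * ∑ C : ClassGroup (𝓞 K), dev K y k C ^ 2 ≤ ε := by
  obtain ⟨-, h⟩ := hE
  have hh : (0 : ℝ) < Nat.card (ClassGroup (𝓞 K)) := by exact_mod_cast Nat.card_pos
  rw [div_le_iff₀ hh] at h
  change ∑ C : ClassGroup (𝓞 K), dev K y k C ^ 2 ≤ _ at h
  calc (Nat.card (ClassGroup (𝓞 K)) : ℝ) * ∑ C : ClassGroup (𝓞 K), dev K y k C ^ 2 ≤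
      Nat.card (ClassGroup (𝓞 K)) * (ε * (1 / (Nat.card (ClassGroup (𝓞 K)) : ℝ)) ^ 2 *
        Nat.card (ClassGroup (𝓞 K))) := mul_le_mul_of_nonneg_left h hh.le
    _ = ε := by field_simp

/-- the sum of the deviations over a set of classes -/
theorem dev_sum (K : Type) [Field K] [NumberField K] (y k : ℕ) (ε : ℝ) (hE : Equi K y k ε)
    (S : Finset (ClassGroup (𝓞 K))) : ∑ C ∈ S, |dev K y k C| ≤ √ε := by
  apply Real.le_sqrt_of_sq_le
  have h1 : (∑ C ∈ S, |dev K y k C|) ^ 2 ≤ (S.card : ℝ) * ∑ C ∈ S, |dev K y k C| ^ 2 :=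
    sq_sum_le_card_mul_sum_sq
  refine h1.trans ((dev_sq K y k ε hE).trans' ?_)
  have h2 : (S.card : ℝ) ≤ Nat.card (ClassGroup (𝓞 K)) := by
    rw [Nat.card_eq_fintype_card]
    exact_mod_cast card_le_univ S
  have h3 : ∑ C ∈ S, |dev K y k C| ^ 2 ≤ ∑ C : ClassGroup (𝓞 K), dev K y k C ^ 2 := by
    simp only [sq_abs]
    exact sum_le_sum_of_subset_of_nonneg (subset_univ _) fun _ _ _ => sq_nonneg _
  exact mul_le_mul h2 h3 (sum_nonneg fun _ _ => sq_nonneg _) (by positivity)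

/-- Outside every proper subgroup there are many classes of tiny primes. -/
theorem robust (K : Type) [Field K] [NumberField K] (y k : ℕ) (ε C : ℝ) (hk : 1 ≤ k)
    (hx : ∀ p ∈ PP y, ((U K p).card : ℝ) ≤ 2)
    (hT : (1 / 2 : ℝ) * ((PP y).card.choose k : ℝ) ≤
      ((∑ C : ClassGroup (𝓞 K), cnt K y k C : ℕ) : ℝ))
    (hE : Equi K y k ε) (hC : 0 < C) (hε : √ε < Real.exp (-(16 * C)) / 2) (hkC : 16 * C ≤ k)
    (hn : 8 * (k : ℝ) ^ 2 ≤ Real.exp (-(16 * C)) * (PP y).card)
    (H : Subgroup (ClassGroup (𝓞 K))) (hH : H ≠ ⊤) :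
    C * (PP y).card <
      k * ∑ p ∈ PP y, (((U K p).filter (fun P => cls P ∉ H)).card : ℝ) := by
  by_contra hcon
  push Not at hcon
  obtain ⟨χ, hχ1, hχ2⟩ := exists_char H hH
  have hpos := hE.1
  obtain ⟨T, hTd⟩ : ∃ T : ℕ, T = ∑ C : ClassGroup (𝓞 K), cnt K y k C := ⟨_, rfl⟩
  have hT0 : (0 : ℝ) < T := by rw [hTd]; exact_mod_cast hpos
  have htot := total K y k
  rw [← hTd] at htot hT
  have hlarge := es_large (PP y) k hk (fun p => ((U K p).card : ℝ))
    (fun p => (((U K p).filter (fun P => cls P ∉ H)).card : ℝ))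
    (fun p hp => ⟨Nat.cast_nonneg _, hx p hp⟩) (fun p => ∑ P ∈ U K p, χ (cls P))
    (fun p _ => by
      refine (norm_sum_le _ _).trans ?_
      rw [sum_congr rfl (g := fun _ => (1 : ℝ)) fun P _ => norm_char χ (cls P)]
      rw [sum_const, nsmul_eq_mul, mul_one])
    (fun p _ => by
      have e : (((U K p).card : ℝ) : ℂ) - ∑ P ∈ U K p, χ (cls P) =
          ∑ P ∈ U K p, (1 - χ (cls P)) := by
        rw [sum_sub_distrib, sum_const, nsmul_eq_mul, mul_one]
        push_cast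
        ring
      rw [e]
      refine (norm_sum_le _ _).trans ?_
      rw [card_filter]
      push_cast
      rw [mul_sum]
      refine sum_le_sum fun P _ => ?_
      by_cases hP : cls P ∈ H
      · rw [hχ1 _ hP, sub_self, norm_zero, if_neg (not_not.2 hP)]
        norm_num
      · rw [if_pos hP, mul_one]
        refine (norm_sub_le _ _).trans ?_
        rw [norm_char χ (cls P), norm_one]
        norm_num) C hC hkC (by rw [← htot]; exact hT) hn hcon
  rw [← htot, ← sum_cnt] at hlarge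
  -- upper bound
  have hup : ‖∑ C : ClassGroup (𝓞 K), (cnt K y k C : ℂ) * χ C‖ ≤ T * √ε := by
    have e : ∑ C : ClassGroup (𝓞 K), (cnt K y k C : ℂ) * χ C =
        (T : ℂ) * ∑ C : ClassGroup (𝓞 K), ((dev K y k C : ℝ) : ℂ) * χ C := by
      have h1 : ∑ C : ClassGroup (𝓞 K), ((dev K y k C : ℝ) : ℂ) * χ C =
          (∑ C : ClassGroup (𝓞 K), (cnt K y k C : ℂ) * χ C) / T -
            (1 / (Nat.card (ClassGroup (𝓞 K)) : ℂ)) * ∑ C : ClassGroup (𝓞 K), χ C := by
        rw [sum_div, mul_sum, ← sum_sub_distrib]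
        refine sum_congr rfl fun C _ => ?_
        unfold dev
        rw [← hTd]
        push_cast
        ring
      rw [h1, sum_char χ hχ2, mul_zero, sub_zero]
      have : (T : ℂ) ≠ 0 := by exact_mod_cast hT0.ne'
      field_simp
    rw [e, norm_mul, Complex.norm_natCast]
    refine mul_le_mul_of_nonneg_left ?_ hT0.le
    refine (norm_sum_le _ _).trans ?_
    refine le_trans (le_of_eq ?_) (dev_sum K y k ε hE univ)
    refine sum_congr rfl fun C _ => ?_
    rw [norm_mul, norm_char, mul_one, Complex.norm_real, Real.norm_eq_abs]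
  have h2 : Real.exp (-(16 * C)) / 2 * T ≤ T * √ε := hlarge.trans hup
  nlinarith

end Pool.Agent.Q162.RU
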