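import Pool.Agent.Q162.RU.R3
import Pool.Agent.Q162.RU.G5

/-!
# Robust generation of the class group by tiny primes: exceptional radicands
-/

set_option autoImplicit false

namespace Pool.Agent.Q162.RU

open Finset Filter NumberField Pool.Agent.H38R2.CG Pool.Agent.H38R2.CG2 Pool.Agent.H38R2.CG3
open Pool.Agent.H38R2.CG.FINh Pool.Agent.Y892.UF Pool.Agent.H38R2.CG.NFh
open scoped Classical

/-- the exceptional discriminants: no equidistribution, or too few ideals -/
def QQ (a t0 : ℝ) (X D : ℕ) : Prop :=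
  Bd a t0 X D ∨ MD D (SA a X) (fun _ => 1) < 1 / 2 * NA a X

theorem MLOW_true : P2_MLOW :=
  T2_MLOW T2_SZ (T2_NB T_NB) T2_COMB T2_PAIR T2_WT (T2_V0 T2_WT) (T2_V1 T_PV T2_WT)

theorem ASQ_QQ (a t0 : ℝ) (ha : 2 < a) (ht0 : 0 < t0) : ASQ a (QQ a t0) := by
  intro C0 hC0 ε hε
  obtain ⟨z0, hz0⟩ := AS0_true a ha t0 ht0 C0 hC0 (ε / 2) (by positivity)
  refine ⟨z0, fun z hz => ?_⟩
  obtain ⟨η1, hη1, H⟩ := hz0 z hz
  refine ⟨min η1 1, lt_min hη1 one_pos, fun η hη0 hηle r hr => ?_⟩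
  obtain ⟨X1, hX1⟩ := H η hη0 (hηle.trans (min_le_left _ _)) r hr
  obtain ⟨X2, hX2⟩ := MLOW_true a ha z r hr η hη0 (hηle.trans (min_le_right _ _)) C0 hC0
    (min (ε / 2) (1 / 2)) (lt_min (by positivity) (by norm_num))
  refine ⟨max (max X1 X2) 3, fun X hX ρ hρ => ?_⟩
  have hXa : X1 ≤ X := (le_max_left _ _).trans ((le_max_left _ _).trans hX)
  have hXb : X2 ≤ X := (le_max_right _ _).trans ((le_max_left _ _).trans hX)
  have hX3 : 3 ≤ X := (le_max_right _ _).trans hX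
  have hXr : (3 : ℝ) ≤ X := by exact_mod_cast hX3
  have hlog : 0 < Real.log X := Real.log_pos (by linarith)
  have hcc : cc a ≤ 1 := (cc_bd ha).2.trans (by norm_num)
  have hwD : ∀ D ∈ DD z r X η, 0 ≤ wt ρ D := by
    intro D hD
    simp only [DD, mem_filter, mem_Ioc] at hD
    exact (T2_WT z X (PA a X) (cc a) C0 ρ (by omega) hcc hρ D (by omega)).1
  have hG : 0 < GG X ρ := lt_of_lt_of_le (by positivity) hρ.low
  have hWW : 0 ≤ WW z X η ρ := by
    unfold WW
    positivity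
  have h1 := hX1 X hXa ρ hρ
  have h2 := hX2 X hXb ρ hρ
  have hN0 : 0 ≤ NA a X := by
    unfold NA CA
    positivity
  have hsub : (FD z r X η).filter (fun D => QQ a t0 X D) ⊆
      (FD z r X η).filter (fun D => Bd a t0 X D) ∪ (DD z r X η).filter
        (fun D => MD D (SA a X) (fun _ => 1) < (1 - min (ε / 2) (1 / 2)) * NA a X) := by
    intro D hD
    rw [mem_filter] at hD
    rw [mem_union, mem_filter, mem_filter]
    rcases hD.2 with h | h
    · exact Or.inl ⟨hD.1, h⟩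
    · refine Or.inr ⟨(mem_filter.1 hD.1).1, lt_of_lt_of_le h ?_⟩
      refine mul_le_mul_of_nonneg_right ?_ hN0
      have := min_le_right (ε / 2) (1 / 2 : ℝ)
      linarith
  have hnn : ∀ D ∈ (FD z r X η).filter (fun D => Bd a t0 X D) ∪ (DD z r X η).filter
        (fun D => MD D (SA a X) (fun _ => 1) < (1 - min (ε / 2) (1 / 2)) * NA a X),
        0 ≤ wt ρ D := by
    intro D hD
    rcases mem_union.1 hD with h | h
    · exact hwD D (mem_filter.1 (mem_filter.1 h).1).1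
    · exact hwD D (mem_filter.1 h).1
  calc ∑ D ∈ (FD z r X η).filter (fun D => QQ a t0 X D), wt ρ D
      ≤ ∑ D ∈ (FD z r X η).filter (fun D => Bd a t0 X D) ∪ (DD z r X η).filter
        (fun D => MD D (SA a X) (fun _ => 1) < (1 - min (ε / 2) (1 / 2)) * NA a X), wt ρ D :=
        sum_le_sum_of_subset_of_nonneg hsub fun D hD _ => hnn D hD
    _ ≤ ∑ D ∈ (FD z r X η).filter (fun D => Bd a t0 X D), wt ρ D +
        ∑ D ∈ (DD z r X η).filter
        (fun D => MD D (SA a X) (fun _ => 1) < (1 - min (ε / 2) (1 / 2)) * NA a X), wt ρ D := by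
        rw [← sum_union_inter]
        have : 0 ≤ ∑ D ∈ (FD z r X η).filter (fun D => Bd a t0 X D) ∩ (DD z r X η).filter
          (fun D => MD D (SA a X) (fun _ => 1) < (1 - min (ε / 2) (1 / 2)) * NA a X), wt ρ D :=
          sum_nonneg fun D hD => hwD D (mem_filter.1 (mem_filter.1 (mem_inter.1 hD).1).1).1
        linarith
    _ ≤ ε / 2 * WW z X η ρ + min (ε / 2) (1 / 2) * WW z X η ρ := add_le_add h1 h2
    _ ≤ ε / 2 * WW z X η ρ + ε / 2 * WW z X η ρ := by
        have := mul_le_mul_of_nonneg_right (min_le_left (ε / 2) (1 / 2 : ℝ)) hWW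
        linarith
    _ = ε * WW z X η ρ := by ring

/-- the number of prime ideals of prime norm at most `B` whose class is not in `H` -/
noncomputable def outside (K : Type) [Field K] [NumberField K] (B : ℝ)
    (H : Subgroup (ClassGroup (𝓞 K))) : ℕ :=
  Nat.card {P : nonZeroDivisors (Ideal (𝓞 K)) // (P : Ideal (𝓞 K)).IsPrime ∧
    (Ideal.absNorm (P : Ideal (𝓞 K))).Prime ∧ (Ideal.absNorm (P : Ideal (𝓞 K)) : ℝ) ≤ B ∧
    ClassGroup.mk0 P ∉ H}

theorem sum_le_outside (K : Type) [Field K] [NumberField K] (y : ℕ) (B : ℝ)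
    (hB : 2 * (y : ℝ) ≤ B) (H : Subgroup (ClassGroup (𝓞 K))) :
    ∑ p ∈ PP y, ((U K p).filter (fun P => cls P ∉ H)).card ≤ outside K B H := by
  have hdisj : ∀ p ∈ PP y, ∀ q ∈ PP y, p ≠ q →
      Disjoint ((U K p).filter (fun P => cls P ∉ H)) ((U K q).filter (fun P => cls P ∉ H)) := by
    intro p _ q _ hpq
    rw [Finset.disjoint_left]
    intro P hP hQ
    rw [mem_filter, mem_U] at hP hQ
    exact hpq (hP.1.symm.trans hQ.1)
  rw [← card_biUnion hdisj]
  obtain ⟨F, hF⟩ : ∃ F, F = (PP y).biUnion (fun p => (U K p).filter (fun P => cls P ∉ H)) :=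
    ⟨_, rfl⟩
  rw [← hF]
  have hmem : ∀ P ∈ F, ∃ p ∈ PP y, Ideal.absNorm P = p ∧ cls P ∉ H := by
    intro P hP
    rw [hF, mem_biUnion] at hP
    obtain ⟨p, hp, hP⟩ := hP
    rw [mem_filter, mem_U] at hP
    exact ⟨p, hp, hP.1, hP.2⟩
  have hcard : F.card = Nat.card {P : Ideal (𝓞 K) // P ∈ F} := by
    rw [Nat.card_eq_fintype_card, Fintype.card_coe]
  rw [hcard]
  unfold outside
  have hfin : Finite {P : nonZeroDivisors (Ideal (𝓞 K)) // (P : Ideal (𝓞 K)).IsPrime ∧
      (Ideal.absNorm (P : Ideal (𝓞 K))).Prime ∧ (Ideal.absNorm (P : Ideal (𝓞 K)) : ℝ) ≤ B ∧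
      ClassGroup.mk0 P ∉ H} := by
    have h1 := Ideal.finite_setOfPred_absNorm_le₀ (S := 𝓞 K) ⌊B⌋₊
    refine Set.Finite.subset h1 ?_
    intro P hP
    exact Nat.le_floor hP.2.2.1
  refine Nat.card_le_card_of_injective (fun z : {P : Ideal (𝓞 K) // P ∈ F} =>
    (⟨⟨z.1, ?_⟩, ?_, ?_, ?_, ?_⟩ : {P : nonZeroDivisors (Ideal (𝓞 K)) //
      (P : Ideal (𝓞 K)).IsPrime ∧
      (Ideal.absNorm (P : Ideal (𝓞 K))).Prime ∧ (Ideal.absNorm (P : Ideal (𝓞 K)) : ℝ) ≤ B ∧
      ClassGroup.mk0 P ∉ H})) ?_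
  · obtain ⟨p, hp, h1, h2⟩ := hmem z.1 z.2
    simp only [PP, mem_filter, mem_Ioc] at hp
    exact mem_nonZeroDivisors_of_ne_zero (ne_zero_of_norm hp.2.pos h1)
  · obtain ⟨p, hp, h1, h2⟩ := hmem z.1 z.2
    simp only [PP, mem_filter, mem_Ioc] at hp
    exact Ideal.isPrime_of_prime (prime_of_norm hp.2 h1)
  · obtain ⟨p, hp, h1, h2⟩ := hmem z.1 z.2
    simp only [PP, mem_filter, mem_Ioc] at hp
    show (Ideal.absNorm z.1).Prime
    rw [h1]
    exact hp.2
  · obtain ⟨p, hp, h1, h2⟩ := hmem z.1 z.2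
    simp only [PP, mem_filter, mem_Ioc] at hp
    show (Ideal.absNorm z.1 : ℝ) ≤ B
    rw [h1]
    refine le_trans ?_ hB
    exact_mod_cast hp.1.2
  · obtain ⟨p, hp, h1, h2⟩ := hmem z.1 z.2
    rw [← cls_mk]
    exact h2
  · intro z w h
    apply Subtype.ext
    have := congrArg (fun v => ((v.1 : nonZeroDivisors (Ideal (𝓞 K))) : Ideal (𝓞 K))) h
    exact this

/-- The property of the final theorem. -/
def GoodR (a C ε : ℝ) (d : ℕ) : Prop :=
  ∀ (K : Type) [Field K] [NumberField K], Module.finrank ℚ K = 2 →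
    (∃ x : K, x ^ 2 = (d : K)) →
    ∃ y k : ℕ, 2 * (y : ℝ) ≤ (Real.log d) ^ a ∧
      2 * (k : ℝ) ≤ Real.log d / Real.log (Real.log d) ∧
      0 < ∑ C' : ClassGroup (𝓞 K), cnt K y k C' ∧
      ∀ H : Subgroup (ClassGroup (𝓞 K)),
        |(∑ C' ∈ Finset.univ.filter (fun C' => C' ∈ H), (cnt K y k C' : ℝ)) /
          ((∑ C' : ClassGroup (𝓞 K), cnt K y k C' : ℕ) : ℝ) - 1 / (H.index : ℝ)| ≤ ε ∧
        (H ≠ ⊤ → C * (Real.log d) ^ (a - 1) ≤ outside K ((Real.log d) ^ a) H)

theorem par (a C1 C2 : ℝ) (ha : 2 < a) (hC1 : 0 < C1) (hC : 10 * 2 ^ a * C2 ≤ C1) (hC2 : 0 < C2) :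
    ∃ X1 : ℕ, ∀ X : ℕ, X1 ≤ X → ∀ d : ℝ, (X : ℝ) / 4 ≤ d → d ≤ 2 * X →
      16 * C1 ≤ kA a X ∧ 8 * (kA a X : ℝ) ^ 2 ≤ Real.exp (-(16 * C1)) * (PA a X).card ∧
      C2 * (Real.log d) ^ (a - 1) * kA a X ≤ C1 * (PA a X).card := by
  have ht : Tendsto (fun X : ℕ => Real.log (X : ℝ)) atTop atTop :=
    Real.tendsto_log_atTop.comp tendsto_natCast_atTop_atTop
  obtain ⟨X1, hX1⟩ := T2_NB T_NB a ha 1 one_pos
  obtain ⟨-, y0, hy0⟩ := T_NB
  have ht2 : Tendsto (fun X : ℕ => (Real.log (X : ℝ)) ^ (-((a - 2) / 2))) atTop (nhds 0) :=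
    (tendsto_rpow_neg_atTop (by linarith : 0 < (a - 2) / 2)).comp ht
  obtain ⟨X2, hX2⟩ := Filter.eventually_atTop.1 (ht2.eventually_le_const
    (show (0 : ℝ) < Real.exp (-(16 * C1)) / 8 by positivity))
  obtain ⟨X3, hX3⟩ := Filter.eventually_atTop.1 (ht.eventually_ge_atTop ((16 * C1) ^ 2 + 10))
  have hyA : Tendsto (yA a) atTop atTop := by
    unfold yA
    apply tendsto_nat_floor_atTop.comp
    apply Tendsto.atTop_div_const (by norm_num)
    exact (tendsto_rpow_atTop (by linarith)).comp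
      (Real.tendsto_log_atTop.comp tendsto_natCast_atTop_atTop)
  obtain ⟨X4, hX4⟩ := (tendsto_atTop.1 hyA (max y0 3)).exists_forall_of_atTop
  refine ⟨max (max (max X1 X2) (max X3 X4)) 8, fun X hX d hd hd2 => ?_⟩
  have hXa : X1 ≤ X := (le_max_left _ _).trans ((le_max_left _ _).trans
    ((le_max_left _ _).trans hX))
  have hXb : X2 ≤ X := (le_max_right _ _).trans ((le_max_left _ _).trans
    ((le_max_left _ _).trans hX))
  have hXc : X3 ≤ X := (le_max_left _ _).trans ((le_max_right _ _).trans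
    ((le_max_left _ _).trans hX))
  have hXd : X4 ≤ X := (le_max_right _ _).trans ((le_max_right _ _).trans
    ((le_max_left _ _).trans hX))
  have hX8 : 8 ≤ X := (le_max_right _ _).trans hX
  have hXr : (8 : ℝ) ≤ X := by exact_mod_cast hX8
  obtain ⟨h1, -, -, h4, h5, h6, -, -⟩ := hX1 X hXa
  have h7 := hX2 X hXb
  have h8 := hX3 X hXc
  have h9 := hX4 X hXd
  obtain ⟨L, hL⟩ : ∃ L, L = Real.log (X : ℝ) := ⟨_, rfl⟩
  rw [← hL] at h1 h4 h5 h7 h8
  have hL10 : 10 ≤ L := by nlinarith [sq_nonneg (16 * C1)]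
  have hy3 : 3 ≤ yA a X := (le_max_right _ _).trans h9
  have hyr : (3 : ℝ) ≤ yA a X := by exact_mod_cast hy3
  have hly : 0 < Real.log (yA a X) := Real.log_pos (by linarith)
  obtain ⟨hp1, -⟩ := hy0 (yA a X) ((le_max_left _ _).trans h9)
  refine ⟨?_, ?_, ?_⟩
  · refine le_trans ?_ h5
    apply Real.le_sqrt_of_sq_le
    linarith
  · have hcard : (0 : ℝ) ≤ (PA a X).card := by positivity
    have := mul_le_mul_of_nonneg_right h7 hcard
    nlinarith
  · have hlogd : Real.log d ≤ 2 * L := by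
      have hd0 : 0 < d := by linarith
      have e1 : Real.log d ≤ Real.log ((X : ℝ) ^ 2) := Real.log_le_log hd0 (by nlinarith)
      rw [Real.log_pow, ← hL] at e1
      push_cast at e1
      linarith
    have hlogd0 : 0 ≤ Real.log d := Real.log_nonneg (by linarith)
    have e2 : (Real.log d) ^ (a - 1) ≤ (2 * L) ^ (a - 1) :=
      Real.rpow_le_rpow hlogd0 hlogd (by linarith)
    have hth := th_lt_one a ha
    have hyX : Real.log (yA a X) ≤ L := by
      rw [hL]
      refine Real.log_le_log (by linarith) ?_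
      rwa [Real.rpow_one] at h6
    have hk : (kA a X : ℝ) ≤ 2 * L / Real.log (yA a X) := by
      have e3 : (kA a X : ℝ) ≤ th a * L / Real.log (yA a X) + 1 := by
        unfold kA
        rw [← hL]
        push_cast
        have e4 : 0 ≤ th a * L / Real.log (yA a X) :=
          div_nonneg (mul_nonneg hth.2 (by linarith)) hly.le
        linarith [Nat.floor_le e4]
      refine e3.trans ?_
      rw [le_div_iff₀ hly, add_mul, div_mul_cancel₀ _ hly.ne', one_mul]
      nlinarith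
    have hyL : L ^ a / 8 ≤ yA a X := by
      have e5 : L ^ a / 4 < (yA a X : ℝ) + 1 := by
        rw [hL]
        exact Nat.lt_floor_add_one _
      have e6 : L ≤ L ^ a := by
        calc L = L ^ (1 : ℝ) := (Real.rpow_one L).symm
          _ ≤ L ^ a := Real.rpow_le_rpow_of_exponent_le (by linarith) (by linarith)
      linarith
    have hcardlow : (9 / 80 : ℝ) * (L ^ a / Real.log (yA a X)) ≤ (PA a X).card := by
      refine le_trans ?_ hp1
      calc (9 / 80 : ℝ) * (L ^ a / Real.log (yA a X)) =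
          (9 / 10) * (L ^ a / 8) / Real.log (yA a X) := by ring
        _ ≤ 9 / 10 * (yA a X : ℝ) / Real.log (yA a X) := by gcongr
    have e7 : (2 * L) ^ (a - 1) * (2 * L) = 2 ^ a * L ^ a := by
      rw [← Real.mul_rpow (by norm_num) (by linarith), ← Real.rpow_add_one (by linarith),
        sub_add_cancel]
    have hLa : 0 ≤ L ^ a := by positivity
    calc C2 * (Real.log d) ^ (a - 1) * kA a X ≤
        C2 * (2 * L) ^ (a - 1) * (2 * L / Real.log (yA a X)) := by gcongr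
      _ = C2 * 2 ^ a * (L ^ a / Real.log (yA a X)) := by
          rw [show C2 * (2 * L) ^ (a - 1) * (2 * L / Real.log (yA a X)) =
            C2 * ((2 * L) ^ (a - 1) * (2 * L)) / Real.log (yA a X) by ring, e7]
          ring
      _ ≤ (C1 / 10) * (L ^ a / Real.log (yA a X)) := by
          refine mul_le_mul_of_nonneg_right ?_ (by positivity)
          linarith
      _ ≤ C1 * ((9 / 80) * (L ^ a / Real.log (yA a X))) := by
          have : 0 ≤ C1 * (L ^ a / Real.log (yA a X)) := by positivity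
          linarith
      _ ≤ C1 * (PA a X).card := mul_le_mul_of_nonneg_left hcardlow hC1.le

theorem index_eq {G : Type} [Group G] [Fintype G] (H : Subgroup G) :
    (1 : ℝ) / H.index = ((Finset.univ.filter (fun c : G => c ∈ H)).card : ℝ) / Nat.card G := by
  have h1 : H.index * Nat.card H = Nat.card G := by
    rw [mul_comm]
    exact H.card_mul_index
  have h2 : (Finset.univ.filter (fun c : G => c ∈ H)).card = Nat.card H := by
    rw [Nat.card_eq_fintype_card, Fintype.card_subtype]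
  rw [h2, ← h1]
  have h3 : (0 : ℝ) < H.index := by
    have : H.index ≠ 0 := Subgroup.index_ne_zero_of_finite
    exact_mod_cast Nat.pos_of_ne_zero this
  have h4 : (0 : ℝ) < Nat.card H := by exact_mod_cast Nat.card_pos
  push_cast
  field_simp

/-- exceptional radicands have exceptional discriminants -/
theorem exR (a C ε : ℝ) (ha : 2 < a) (hC : 0 < C) (hε : 0 < ε) :
    ∃ t0 : ℝ, 0 < t0 ∧ EX (QQ a t0) (fun d => ¬ GoodR a C ε d) := by
  obtain ⟨C1, hC1d⟩ : ∃ C1 : ℝ, C1 = 10 * 2 ^ a * C := ⟨_, rfl⟩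
  have hC1 : 0 < C1 := by rw [hC1d]; positivity
  obtain ⟨t, htd⟩ : ∃ t : ℝ, t = min ε (Real.exp (-(16 * C1)) / 4) := ⟨_, rfl⟩
  have ht : 0 < t := by rw [htd]; exact lt_min hε (by positivity)
  refine ⟨t ^ 2, by positivity, ?_⟩
  have hst : √(t ^ 2) = t := Real.sqrt_sq ht.le
  obtain ⟨X1, hX1⟩ := params a ha
  obtain ⟨X2, hX2⟩ := par a C1 C ha hC1 (by rw [hC1d]) hC
  obtain ⟨X3, hX3⟩ := T2_NB T_NB a ha 1 one_pos
  refine ⟨max (max X1 X2) (max X3 3), fun X hX d hd1 hds hg hXD hDX => ?_⟩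
  have hXa : X1 ≤ X := (le_max_left _ _).trans ((le_max_left _ _).trans hX)
  have hXb : X2 ≤ X := (le_max_right _ _).trans ((le_max_left _ _).trans hX)
  have hXc : X3 ≤ X := (le_max_left _ _).trans ((le_max_right _ _).trans hX)
  have hX3' : 3 ≤ X := (le_max_right _ _).trans ((le_max_right _ _).trans hX)
  have hXr : (3 : ℝ) ≤ X := by exact_mod_cast hX3'
  have hfund := isFund_Dof hd1 hds
  refine ⟨hfund, ?_⟩
  have hd4 : (X : ℝ) / 4 ≤ d := by
    have h1 : X < 4 * d := lt_of_lt_of_le hXD (Dof_le d)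
    have h2 : (X : ℝ) < 4 * d := by exact_mod_cast h1
    linarith
  have hd2 : (d : ℝ) ≤ 2 * X := by
    have h1 : d ≤ 2 * X := (le_Dof d).trans hDX
    exact_mod_cast h1
  obtain ⟨hy, hk, hy2⟩ := hX1 X hXa d hd4 hd2
  obtain ⟨hp1, hp2, hp3⟩ := hX2 X hXb d hd4 hd2
  have hk1 : 1 ≤ kA a X := by
    unfold kA
    omega
  have hkr : (1 : ℝ) ≤ kA a X := by exact_mod_cast hk1
  by_contra hQ
  unfold QQ at hQ
  push Not at hQ
  obtain ⟨hQ1, hQ2⟩ := hQ
  apply hg
  intro K iF iN hrank hx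
  have hdisc : NumberField.discr K = ((Dof d : ℕ) : ℤ) := by
    rw [T_N0d K d hd1 hds hrank hx]
    unfold Dof
    split_ifs <;> simp
  have hEq : Equi K (yA a X) (kA a X) (t ^ 2) := by
    by_contra hne
    exact hQ1 (bd_of_not_equi T_N0 (T_N1 (T_SPL T_N0)) N3_true N4_true T_KF
      (T_N5b T_KF N4_true) (T_N6 T_KF) a _ X (Dof d) hy2 hfund K hrank hdisc hne)
  have hprime : ∀ p ∈ PP (yA a X), p.Prime ∧ p ≠ 2 := by
    intro p hp
    simp only [PP, mem_filter, mem_Ioc] at hp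
    exact ⟨hp.2, by omega⟩
  have hxle : ∀ p ∈ PP (yA a X), ((U K p).card : ℝ) ≤ 2 := by
    intro p hp
    have h1 := (T_N1 (T_SPL T_N0)) K (Dof d) hfund hrank hdisc {p} (by
      intro q hq
      rw [mem_singleton] at hq
      rw [hq]
      exact hprime p hp)
    have h2 : prodS {p} = p := by
      unfold prodS
      rw [prod_singleton]
    rw [h2, ← card_U, prod_singleton] at h1
    have h3 := (abs_le.1 (Pool.Agent.H38R2.CG.TB6bh.chi_abs (Dof d) p)).2
    have h4 : ((U K p).card : ℝ) = 1 + (chi (Dof d) p : ℝ) := by exact_mod_cast h1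
    rw [h4]
    linarith
  have htot : ((∑ C' : ClassGroup (𝓞 K), cnt K (yA a X) (kA a X) C' : ℕ) : ℝ) =
      MD (Dof d) (SA a X) (fun _ => 1) := by
    rw [total]
    unfold es MD
    refine sum_congr rfl fun s hs => ?_
    rw [one_mul]
    have h1 := (T_N1 (T_SPL T_N0)) K (Dof d) hfund hrank hdisc
    refine prod_congr rfl fun p hp => ?_
    have hpP := (mem_powersetCard.1 hs).1 hp
    have h2 := h1 {p} (by
      intro q hq
      rw [mem_singleton] at hq
      rw [hq]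
      exact hprime p hpP)
    have h3 : prodS {p} = p := by
      unfold prodS
      rw [prod_singleton]
    rw [h3, ← card_U, prod_singleton] at h2
    show ((U K p).card : ℝ) = 1 + (chi (Dof d) p : ℝ)
    exact_mod_cast h2
  have hT : (1 / 2 : ℝ) * ((PP (yA a X)).card.choose (kA a X) : ℝ) ≤
      ((∑ C' : ClassGroup (𝓞 K), cnt K (yA a X) (kA a X) C' : ℕ) : ℝ) := by
    rw [htot]
    exact hQ2
  refine ⟨yA a X, kA a X, hy, hk, hEq.1, fun H => ⟨?_, fun hH => ?_⟩⟩
  · have hd := dev_sum K (yA a X) (kA a X) (t ^ 2) hEq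
      (Finset.univ.filter (fun C' => C' ∈ H))
    rw [hst] at hd
    refine le_trans ?_ (hd.trans (by rw [htd]; exact min_le_left _ _))
    have e : (∑ C' ∈ Finset.univ.filter (fun C' => C' ∈ H), (cnt K (yA a X) (kA a X) C' : ℝ)) /
          ((∑ C' : ClassGroup (𝓞 K), cnt K (yA a X) (kA a X) C' : ℕ) : ℝ) - 1 / (H.index : ℝ) =
        ∑ C' ∈ Finset.univ.filter (fun C' => C' ∈ H), dev K (yA a X) (kA a X) C' := by
      unfold dev
      rw [sum_sub_distrib, sum_const, nsmul_eq_mul, sum_div, index_eq H]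
      ring
    rw [e]
    exact abs_sum_le_sum_abs _ _
  · have hr := robust K (yA a X) (kA a X) (t ^ 2) C1 hk1 hxle hT hEq hC1 (by
      rw [hst, htd]
      refine lt_of_le_of_lt (min_le_right _ _) ?_
      have := Real.exp_pos (-(16 * C1))
      linarith) hp1 hp2 H hH
    have h1 := sum_le_outside K (yA a X) ((Real.log d) ^ a) hy H
    have h1' : ∑ p ∈ PP (yA a X), (((U K p).filter (fun P => cls P ∉ H)).card : ℝ) ≤
        outside K ((Real.log d) ^ a) H := by exact_mod_cast h1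
    have h2 : C * (Real.log d) ^ (a - 1) * kA a X <
        (kA a X : ℝ) * ∑ p ∈ PP (yA a X), (((U K p).filter (fun P => cls P ∉ H)).card : ℝ) :=
      lt_of_le_of_lt hp3 hr
    rw [mul_comm] at h2
    have h3 := lt_of_mul_lt_mul_left h2 (by linarith)
    linarith

end Pool.Agent.Q162.RU
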