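import Pool.Agent.Q162.RU.R1

/-!
# Elementary symmetric functions of numbers with a large sum
-/

set_option autoImplicit false

namespace Pool.Agent.Q162.RU

open Finset
open scoped Classical

/-- the sum of the bounds is large -/
theorem sum_large (P : Finset ℕ) (k : ℕ) (hk : 1 ≤ k) (x : ℕ → ℝ)
    (hx : ∀ p ∈ P, 0 ≤ x p) (hT : (1 / 2 : ℝ) * (P.card.choose k : ℝ) ≤ es P k x)
    (hnk : 8 * (k : ℝ) ≤ P.card) : (P.card : ℝ) / 4 ≤ ∑ p ∈ P, x p := by
  obtain ⟨X, hXd⟩ : ∃ X, X = ∑ p ∈ P, x p := ⟨_, rfl⟩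
  obtain ⟨n, hnd⟩ : ∃ n, n = P.card := ⟨_, rfl⟩
  rw [← hnd] at hT hnk ⊢
  have hk1 : (1 : ℝ) ≤ k := by exact_mod_cast hk
  have hX0 : 0 ≤ X := by rw [hXd]; exact sum_nonneg fun p hp => hx p hp
  have hXk := es_le P k x hx
  rw [← hXd] at hXk ⊢
  have hkn : k ≤ n := by
    have : (k : ℝ) ≤ n := by linarith
    exact_mod_cast this
  have hdesc : (((n : ℝ) - k) / 2) ^ k ≤ X ^ k := by
    have h1 : (n + 1 - k) ^ k ≤ n.descFactorial k := Nat.pow_sub_le_descFactorial n k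
    have h2 : n.descFactorial k = k.factorial * n.choose k :=
      Nat.descFactorial_eq_factorial_mul_choose n k
    rw [h2] at h1
    have h3 : (((n + 1 - k) ^ k : ℕ) : ℝ) ≤ (k.factorial : ℝ) * (n.choose k : ℝ) := by
      exact_mod_cast h1
    have h4 : ((n : ℝ) - k) ^ k ≤ (((n + 1 - k) ^ k : ℕ) : ℝ) := by
      rw [Nat.cast_pow, Nat.cast_sub (by omega)]
      push_cast
      refine pow_le_pow_left₀ (by linarith) (by linarith) k
    have h5 : (1 / 2 : ℝ) * ((k.factorial : ℝ) * (n.choose k : ℝ)) ≤ X ^ k := by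
      refine le_trans ?_ hXk
      calc (1 / 2 : ℝ) * ((k.factorial : ℝ) * (n.choose k : ℝ)) =
          (k.factorial : ℝ) * ((1 / 2 : ℝ) * (n.choose k : ℝ)) := by ring
        _ ≤ _ := mul_le_mul_of_nonneg_left hT (by positivity)
    have h6 : (1 / 2 : ℝ) ^ k ≤ 1 / 2 := by
      calc (1 / 2 : ℝ) ^ k ≤ (1 / 2 : ℝ) ^ 1 :=
            pow_le_pow_of_le_one (by norm_num) (by norm_num) hk
        _ = 1 / 2 := pow_one _
    have h7 : (0 : ℝ) ≤ ((n : ℝ) - k) ^ k := pow_nonneg (by linarith) k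
    calc (((n : ℝ) - k) / 2) ^ k = (1 / 2 : ℝ) ^ k * ((n : ℝ) - k) ^ k := by
          rw [div_pow, one_div, inv_pow]; ring
      _ ≤ 1 / 2 * ((n : ℝ) - k) ^ k := mul_le_mul_of_nonneg_right h6 h7
      _ ≤ 1 / 2 * ((k.factorial : ℝ) * (n.choose k : ℝ)) :=
          mul_le_mul_of_nonneg_left (h4.trans h3) (by norm_num)
      _ ≤ X ^ k := h5
  have hXn : ((n : ℝ) - k) / 2 ≤ X := by
    by_contra hcon
    push Not at hcon
    have := pow_lt_pow_left₀ hcon hX0 (by omega : k ≠ 0)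
    linarith
  linarith

/-- If the sum of the numbers `g p` is close to the sum of their bounds `x p`, then the elementary
symmetric function of the numbers `g p` is large. -/
theorem es_gap (P : Finset ℕ) (k : ℕ) (hk : 1 ≤ k) (x : ℕ → ℝ)
    (hx : ∀ p ∈ P, 0 ≤ x p ∧ x p ≤ 2) (g : ℕ → ℂ) (hg : ∀ p ∈ P, ‖g p‖ ≤ x p)
    (C : ℝ) (hC : 0 < C) (hkC : 2 * C ≤ k)
    (hT : (1 / 2 : ℝ) * (P.card.choose k : ℝ) ≤ es P k x)
    (hn : 8 * (k : ℝ) ^ 2 ≤ Real.exp (-(2 * C)) * P.card)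
    (hΛ : (∑ p ∈ P, x p) * (1 - C / k) ≤ ‖∑ p ∈ P, g p‖) :
    Real.exp (-(2 * C)) / 2 * es P k x ≤ ‖es P k g‖ := by
  have hk1 : (1 : ℝ) ≤ k := by exact_mod_cast hk
  have he1 : Real.exp (-(2 * C)) ≤ 1 := Real.exp_le_one_iff.2 (by linarith)
  have he0 : 0 < Real.exp (-(2 * C)) := Real.exp_pos _
  have hnk : 8 * (k : ℝ) ≤ P.card := by
    have h1 : (k : ℝ) ≤ (k : ℝ) ^ 2 := by nlinarith
    have h2 : Real.exp (-(2 * C)) * P.card ≤ P.card := by
      have : (0 : ℝ) ≤ P.card := by positivity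
      nlinarith
    linarith
  have hX4 := sum_large P k hk x (fun p hp => (hx p hp).1) hT hnk
  have hXk := es_le P k x (fun p hp => (hx p hp).1)
  have hnear := es_near P k x hx g hg
  obtain ⟨X, hXd⟩ : ∃ X, X = ∑ p ∈ P, x p := ⟨_, rfl⟩
  obtain ⟨Λ, hΛd⟩ : ∃ Λ, Λ = ∑ p ∈ P, g p := ⟨_, rfl⟩
  rw [← hXd] at hXk hX4 hnear hΛ
  rw [← hΛd] at hnear hΛ
  have hXpos : 0 < X := by linarith
  have hu0 : 0 ≤ C / k := by positivity
  have hu1 : C / k ≤ 1 / 2 := by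
    rw [div_le_iff₀ (by linarith)]
    linarith
  have hpow : X ^ k * Real.exp (-(2 * C)) ≤ ‖Λ‖ ^ k := by
    have h1 : Real.exp (-(2 * (C / k))) ≤ 1 - C / k := by
      have h2 := Real.add_one_le_exp (2 * (C / k))
      have h3 : 1 ≤ (1 - C / k) * (2 * (C / k) + 1) := by nlinarith
      have h4 : 1 ≤ (1 - C / k) * Real.exp (2 * (C / k)) := by
        refine h3.trans (mul_le_mul_of_nonneg_left h2 (by linarith))
      rw [Real.exp_neg]
      rw [inv_le_iff_one_le_mul₀ (Real.exp_pos _)]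
      exact h4
    have h5 : Real.exp (-(2 * C)) = (Real.exp (-(2 * (C / k)))) ^ k := by
      rw [← Real.exp_nat_mul]
      congr 1
      field_simp
    rw [h5, ← mul_pow]
    refine pow_le_pow_left₀ (by positivity) ?_ k
    exact (mul_le_mul_of_nonneg_left h1 hXpos.le).trans hΛ
  have h6 : ‖Λ ^ k‖ - (k : ℝ) ^ 2 * X ^ (k - 1) ≤ (k.factorial : ℝ) * ‖es P k g‖ := by
    have h7 := norm_sub_norm_le (Λ ^ k) ((k.factorial : ℂ) * es P k g)
    rw [norm_sub_rev, norm_mul, Complex.norm_natCast] at h7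
    linarith
  rw [norm_pow] at h6
  have h8 : (k : ℝ) ^ 2 * X ^ (k - 1) ≤ Real.exp (-(2 * C)) / 2 * X ^ k := by
    have e : X ^ k = X * X ^ (k - 1) := by
      rw [← pow_succ', Nat.sub_add_cancel hk]
    rw [e]
    have h9 : (k : ℝ) ^ 2 ≤ Real.exp (-(2 * C)) / 2 * X := by nlinarith
    calc (k : ℝ) ^ 2 * X ^ (k - 1) ≤ (Real.exp (-(2 * C)) / 2 * X) * X ^ (k - 1) :=
          mul_le_mul_of_nonneg_right h9 (by positivity)
      _ = _ := by ring
  have h10 : Real.exp (-(2 * C)) / 2 * X ^ k ≤ (k.factorial : ℝ) * ‖es P k g‖ := by linarith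
  have hf : (0 : ℝ) < (k.factorial : ℝ) := by positivity
  have h11 : (k.factorial : ℝ) * (Real.exp (-(2 * C)) / 2 * es P k x) ≤
      (k.factorial : ℝ) * ‖es P k g‖ := by
    refine le_trans ?_ h10
    calc (k.factorial : ℝ) * (Real.exp (-(2 * C)) / 2 * es P k x) =
        Real.exp (-(2 * C)) / 2 * ((k.factorial : ℝ) * es P k x) := by ring
      _ ≤ _ := mul_le_mul_of_nonneg_left hXk (by positivity)
  exact le_of_mul_le_mul_left h11 hf

end Pool.Agent.Q162.RU
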