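import Pool.Agent.Q162.RU.R4
import Pool.Agent.Q162.RU.R5

/-!
# The spectral gap of the Cayley graph of the class group
-/

set_option autoImplicit false

namespace Pool.Agent.Q162.RU

open Finset Filter NumberField Pool.Agent.H38R2.CG Pool.Agent.H38R2.CG2 Pool.Agent.H38R2.CG3
open Pool.Agent.H38R2.CG.FINh Pool.Agent.Y892.UF Pool.Agent.H38R2.CG.NFh
open scoped Classical

theorem gap (K : Type) [Field K] [NumberField K] (y k : ℕ) (ε C : ℝ) (hk : 1 ≤ k)
    (hx : ∀ p ∈ PP y, ((U K p).card : ℝ) ≤ 2)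
    (hT : (1 / 2 : ℝ) * ((PP y).card.choose k : ℝ) ≤
      ((∑ C : ClassGroup (𝓞 K), cnt K y k C : ℕ) : ℝ))
    (hE : Equi K y k ε) (hC : 0 < C) (hε : √ε < Real.exp (-(2 * C)) / 2) (hkC : 2 * C ≤ k)
    (hn : 8 * (k : ℝ) ^ 2 ≤ Real.exp (-(2 * C)) * (PP y).card)
    (χ : ClassGroup (𝓞 K) →* ℂ) (hχ : ∃ c, χ c ≠ 1) :
    ‖∑ p ∈ PP y, ∑ P ∈ U K p, χ (cls P)‖ < (∑ p ∈ PP y, ((U K p).card : ℝ)) * (1 - C / k) := by
  by_contra hcon
  push Not at hcon
  have hpos := hE.1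
  obtain ⟨T, hTd⟩ : ∃ T : ℕ, T = ∑ C : ClassGroup (𝓞 K), cnt K y k C := ⟨_, rfl⟩
  have hT0 : (0 : ℝ) < T := by rw [hTd]; exact_mod_cast hpos
  have htot := total K y k
  rw [← hTd] at htot hT
  have hlarge := es_gap (PP y) k hk (fun p => ((U K p).card : ℝ))
    (fun p hp => ⟨Nat.cast_nonneg _, hx p hp⟩) (fun p => ∑ P ∈ U K p, χ (cls P))
    (fun p _ => by
      refine (norm_sum_le _ _).trans ?_
      rw [sum_congr rfl (g := fun _ => (1 : ℝ)) fun P _ => norm_char χ (cls P)]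
      rw [sum_const, nsmul_eq_mul, mul_one]) C hC hkC (by rw [← htot]; exact hT) hn hcon
  rw [← htot, ← sum_cnt] at hlarge
  have hup : ‖∑ C : ClassGroup (𝓞 K), (cnt K y k C : ℂ) * χ C‖ ≤ T * √ε := by
    have e : ∑ C : ClassGroup (𝓞 K), (cnt K y k C : ℂ) * χ C =
        (T : ℂ) * ∑ C : ClassGroup (𝓞 K), ((dev K y k C : ℝ) : ℂ) * χ C := by
      have h1 : ∑ C : ClassGroup (𝓞 K), ((dev K y k C : ℝ) : ℂ) * χ C =
          (∑ C : ClassGroup (𝓞 K), (cnt K y k C : ℂ) * χ C) / T -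
            (1 / (Nat.card (ClassGroup (𝓞 K)) : ℂ)) * ∑ C : ClassGroup (𝓞 K), χ C := by
        rw [sum_div, mul_sum, ← sum_sub_distrib]
        refine sum_congr rfl fun C _ => ?_
        unfold dev
        rw [← hTd]
        push_cast
        ring
      rw [h1, sum_char χ hχ, mul_zero, sub_zero]
      have : (T : ℂ) ≠ 0 := by exact_mod_cast hT0.ne'
      field_simp
    rw [e, norm_mul, Complex.norm_natCast]
    refine mul_le_mul_of_nonneg_left ?_ hT0.le
    refine (norm_sum_le _ _).trans ?_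
    refine le_trans (le_of_eq ?_) (dev_sum K y k ε hE univ)
    refine sum_congr rfl fun C _ => ?_
    rw [norm_mul, norm_char, mul_one, Complex.norm_real, Real.norm_eq_abs]
  have h2 : Real.exp (-(2 * C)) / 2 * T ≤ T * √ε := hlarge.trans hup
  nlinarith

/-- the prime ideals whose norm is a prime of the interval (y, 2y] -/
noncomputable def tiny (K : Type) [Field K] [NumberField K] (y : ℕ) :
    Finset (nonZeroDivisors (Ideal (𝓞 K))) :=
  (Ideal.finite_setOfPred_absNorm_le₀ (S := 𝓞 K) (2 * y)).toFinset.filter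
    (fun P => (P : Ideal (𝓞 K)).IsPrime ∧ (Ideal.absNorm (P : Ideal (𝓞 K))).Prime ∧
      y < Ideal.absNorm (P : Ideal (𝓞 K)))

theorem mem_tiny {K : Type} [Field K] [NumberField K] {y : ℕ}
    {P : nonZeroDivisors (Ideal (𝓞 K))} : P ∈ tiny K y ↔ (P : Ideal (𝓞 K)).IsPrime ∧
      (Ideal.absNorm (P : Ideal (𝓞 K))).Prime ∧ y < Ideal.absNorm (P : Ideal (𝓞 K)) ∧
      Ideal.absNorm (P : Ideal (𝓞 K)) ≤ 2 * y := by
  unfold tiny
  rw [mem_filter, Set.Finite.mem_toFinset]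
  constructor
  · rintro ⟨h1, h2, h3, h4⟩
    exact ⟨h2, h3, h4, h1⟩
  · rintro ⟨h2, h3, h4, h1⟩
    exact ⟨h1, h2, h3, h4⟩

theorem tiny_sum {M : Type} [AddCommMonoid M] (K : Type) [Field K] [NumberField K] (y : ℕ)
    (F : ClassGroup (𝓞 K) → M) :
    ∑ P ∈ tiny K y, F (ClassGroup.mk0 P) = ∑ p ∈ PP y, ∑ P ∈ U K p, F (cls P) := by
  have hdisj : (↑(PP y) : Set ℕ).PairwiseDisjoint (fun p => U K p) := by
    intro p _ q _ hpq
    rw [Function.onFun, Finset.disjoint_left]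
    intro P hP hQ
    rw [mem_U] at hP hQ
    exact hpq (hP.symm.trans hQ)
  rw [← sum_biUnion hdisj]
  refine sum_bij (fun P _ => (P : Ideal (𝓞 K))) ?_ ?_ ?_ ?_
  · intro P hP
    rw [mem_tiny] at hP
    rw [mem_biUnion]
    refine ⟨Ideal.absNorm (P : Ideal (𝓞 K)), ?_, mem_U.2 rfl⟩
    simp only [PP, mem_filter, mem_Ioc]
    exact ⟨⟨hP.2.2.1, hP.2.2.2⟩, hP.2.1⟩
  · intro P _ Q _ h
    exact Subtype.ext h
  · intro P hP
    rw [mem_biUnion] at hP
    obtain ⟨p, hp, hPp⟩ := hP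
    simp only [PP, mem_filter, mem_Ioc] at hp
    rw [mem_U] at hPp
    refine ⟨⟨P, mem_nonZeroDivisors_of_ne_zero (ne_zero_of_norm hp.2.pos hPp)⟩, ?_, rfl⟩
    rw [mem_tiny]
    refine ⟨Ideal.isPrime_of_prime (prime_of_norm hp.2 hPp), ?_, ?_, ?_⟩
    · show (Ideal.absNorm P).Prime
      rw [hPp]
      exact hp.2
    · show y < Ideal.absNorm P
      rw [hPp]
      exact hp.1.1
    · show Ideal.absNorm P ≤ 2 * y
      rw [hPp]
      exact hp.1.2
  · intro P _
    rw [cls_mk]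

theorem tiny_card (K : Type) [Field K] [NumberField K] (y : ℕ) :
    ((tiny K y).card : ℝ) = ∑ p ∈ PP y, ((U K p).card : ℝ) := by
  have h := tiny_sum K y (fun _ => (1 : ℝ))
  simp only [sum_const, nsmul_eq_mul, mul_one] at h
  exact h

/-- The property of the final theorem. -/
def GoodS (a C : ℝ) (d : ℕ) : Prop :=
  ∀ (K : Type) [Field K] [NumberField K], Module.finrank ℚ K = 2 →
    (∃ x : K, x ^ 2 = (d : K)) →
    ∃ y : ℕ, 2 * (y : ℝ) ≤ (Real.log d) ^ a ∧
      (∀ χ : ClassGroup (𝓞 K) →* ℂ, (∃ c, χ c ≠ 1) →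
        ‖∑ P ∈ tiny K y, χ (ClassGroup.mk0 P)‖ ≤
          (1 - C * Real.log (Real.log d) / Real.log d) * (tiny K y).card) ∧
      (∀ (H : Subgroup (ClassGroup (𝓞 K))) (c : ClassGroup (𝓞 K)), H ≠ ⊤ →
        C * (Real.log d) ^ (a - 1) ≤
          ((tiny K y).filter (fun P => c⁻¹ * ClassGroup.mk0 P ∉ H)).card)

theorem coset_bound (K : Type) [Field K] [NumberField K] (y : ℕ) (δ : ℝ)
    (hgap : ∀ χ : ClassGroup (𝓞 K) →* ℂ, (∃ c, χ c ≠ 1) →
      ‖∑ P ∈ tiny K y, χ (ClassGroup.mk0 P)‖ ≤ (1 - δ) * (tiny K y).card)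
    (H : Subgroup (ClassGroup (𝓞 K))) (c : ClassGroup (𝓞 K)) (hH : H ≠ ⊤) :
    δ * (tiny K y).card ≤ 2 * ((tiny K y).filter (fun P => c⁻¹ * ClassGroup.mk0 P ∉ H)).card := by
  obtain ⟨χ, hχ1, hχ2⟩ := exists_char H hH
  have h1 := hgap χ hχ2
  have h2 : ‖((tiny K y).card : ℂ) * χ c - ∑ P ∈ tiny K y, χ (ClassGroup.mk0 P)‖ ≤
      2 * ((tiny K y).filter (fun P => c⁻¹ * ClassGroup.mk0 P ∉ H)).card := by
    have e : ((tiny K y).card : ℂ) * χ c - ∑ P ∈ tiny K y, χ (ClassGroup.mk0 P) =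
        ∑ P ∈ tiny K y, (χ c - χ (ClassGroup.mk0 P)) := by
      rw [sum_sub_distrib, sum_const, nsmul_eq_mul]
    rw [e]
    refine (norm_sum_le _ _).trans ?_
    rw [card_filter]
    push_cast
    rw [mul_sum]
    refine sum_le_sum fun P _ => ?_
    by_cases hP : c⁻¹ * ClassGroup.mk0 P ∈ H
    · have h3 : χ (ClassGroup.mk0 P) = χ c := by
        have h4 : ClassGroup.mk0 P = c * (c⁻¹ * ClassGroup.mk0 P) := by
          rw [mul_inv_cancel_left]
        rw [h4, map_mul, hχ1 _ hP, mul_one]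
      rw [h3, sub_self, norm_zero, if_neg (not_not.2 hP)]
      norm_num
    · rw [if_pos hP, mul_one]
      refine (norm_sub_le _ _).trans ?_
      rw [norm_char χ _, norm_char χ _]
      norm_num
  have h5 : ((tiny K y).card : ℝ) - ‖∑ P ∈ tiny K y, χ (ClassGroup.mk0 P)‖ ≤
      ‖((tiny K y).card : ℂ) * χ c - ∑ P ∈ tiny K y, χ (ClassGroup.mk0 P)‖ := by
    have h6 := norm_sub_norm_le (((tiny K y).card : ℂ) * χ c)
      (∑ P ∈ tiny K y, χ (ClassGroup.mk0 P))
    rw [norm_mul, norm_char χ c, mul_one, Complex.norm_natCast] at h6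
    exact h6
  linarith

/-- exceptional radicands have exceptional discriminants -/
theorem exS (a C : ℝ) (ha : 2 < a) (hC : 0 < C) :
    ∃ t0 : ℝ, 0 < t0 ∧ EX (QQ a t0) (fun d => ¬ GoodS a C d) := by
  obtain ⟨C1, hC1d⟩ : ∃ C1 : ℝ, C1 = 10 * 2 ^ a * C := ⟨_, rfl⟩
  have h2a : (1 : ℝ) ≤ 2 ^ a := Real.one_le_rpow (by norm_num) (by linarith)
  have hCC1 : C ≤ C1 := by
    rw [hC1d]
    nlinarith
  have hC1 : 0 < C1 := by linarith
  obtain ⟨t, htd⟩ : ∃ t : ℝ, t = Real.exp (-(16 * C1)) / 4 := ⟨_, rfl⟩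
  have ht : 0 < t := by rw [htd]; positivity
  refine ⟨t ^ 2, by positivity, ?_⟩
  have hst : √(t ^ 2) = t := Real.sqrt_sq ht.le
  obtain ⟨X1, hX1⟩ := params a ha
  obtain ⟨X2, hX2⟩ := par a C1 C ha hC1 (by rw [hC1d]) hC
  obtain ⟨X3, hX3⟩ := T2_NB T_NB a ha 1 one_pos
  have htl : Tendsto (fun X : ℕ => Real.log (X : ℝ)) atTop atTop :=
    Real.tendsto_log_atTop.comp tendsto_natCast_atTop_atTop
  obtain ⟨X4, hX4⟩ := Filter.eventually_atTop.1 (htl.eventually_ge_atTop 6)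
  refine ⟨max (max X1 X2) (max (max X3 X4) 8), fun X hX d hd1 hds hg hXD hDX => ?_⟩
  have hXa : X1 ≤ X := (le_max_left _ _).trans ((le_max_left _ _).trans hX)
  have hXb : X2 ≤ X := (le_max_right _ _).trans ((le_max_left _ _).trans hX)
  have hXd : X4 ≤ X := (le_max_right _ _).trans ((le_max_left _ _).trans
    ((le_max_right _ _).trans hX))
  have hX8 : 8 ≤ X := (le_max_right _ _).trans ((le_max_right _ _).trans hX)
  have hXr : (8 : ℝ) ≤ X := by exact_mod_cast hX8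
  have hfund := isFund_Dof hd1 hds
  refine ⟨hfund, ?_⟩
  have hd4 : (X : ℝ) / 4 ≤ d := by
    have h1 : X < 4 * d := lt_of_lt_of_le hXD (Dof_le d)
    have h2 : (X : ℝ) < 4 * d := by exact_mod_cast h1
    linarith
  have hd2 : (d : ℝ) ≤ 2 * X := by
    have h1 : d ≤ 2 * X := (le_Dof d).trans hDX
    exact_mod_cast h1
  obtain ⟨hy, hk, hy2⟩ := hX1 X hXa d hd4 hd2
  obtain ⟨hp1, hp2, hp3⟩ := hX2 X hXb d hd4 hd2
  have hk1 : 1 ≤ kA a X := by
    unfold kA
    omega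
  have hkr : (1 : ℝ) ≤ kA a X := by exact_mod_cast hk1
  by_contra hQ
  unfold QQ at hQ
  push Not at hQ
  obtain ⟨hQ1, hQ2⟩ := hQ
  apply hg
  intro K iF iN hrank hx
  have hdisc : NumberField.discr K = ((Dof d : ℕ) : ℤ) := by
    rw [T_N0d K d hd1 hds hrank hx]
    unfold Dof
    split_ifs <;> simp
  have hEq : Equi K (yA a X) (kA a X) (t ^ 2) := by
    by_contra hne
    exact hQ1 (bd_of_not_equi T_N0 (T_N1 (T_SPL T_N0)) N3_true N4_true T_KF
      (T_N5b T_KF N4_true) (T_N6 T_KF) a _ X (Dof d) hy2 hfund K hrank hdisc hne)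
  have hprime : ∀ p ∈ PP (yA a X), p.Prime ∧ p ≠ 2 := by
    intro p hp
    simp only [PP, mem_filter, mem_Ioc] at hp
    exact ⟨hp.2, by omega⟩
  have hU : ∀ p ∈ PP (yA a X), ((U K p).card : ℝ) = 1 + (chi (Dof d) p : ℝ) := by
    intro p hp
    have h1 := (T_N1 (T_SPL T_N0)) K (Dof d) hfund hrank hdisc {p} (by
      intro q hq
      rw [mem_singleton] at hq
      rw [hq]
      exact hprime p hp)
    have h2 : prodS {p} = p := by
      unfold prodS
      rw [prod_singleton]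
    rw [h2, ← card_U, prod_singleton] at h1
    exact_mod_cast h1
  have hxle : ∀ p ∈ PP (yA a X), ((U K p).card : ℝ) ≤ 2 := by
    intro p hp
    have h3 := (abs_le.1 (Pool.Agent.H38R2.CG.TB6bh.chi_abs (Dof d) p)).2
    rw [hU p hp]
    linarith
  have htot : ((∑ C' : ClassGroup (𝓞 K), cnt K (yA a X) (kA a X) C' : ℕ) : ℝ) =
      MD (Dof d) (SA a X) (fun _ => 1) := by
    rw [total]
    unfold es MD
    refine sum_congr rfl fun s hs => ?_
    rw [one_mul]
    refine prod_congr rfl fun p hp => ?_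
    exact hU p ((mem_powersetCard.1 hs).1 hp)
  have hT : (1 / 2 : ℝ) * ((PP (yA a X)).card.choose (kA a X) : ℝ) ≤
      ((∑ C' : ClassGroup (𝓞 K), cnt K (yA a X) (kA a X) C' : ℕ) : ℝ) := by
    rw [htot]
    exact hQ2
  -- the gap
  have hgap : ∀ χ : ClassGroup (𝓞 K) →* ℂ, (∃ c, χ c ≠ 1) →
      ‖∑ P ∈ tiny K (yA a X), χ (ClassGroup.mk0 P)‖ ≤
        (1 - 8 * C1 / kA a X) * (tiny K (yA a X)).card := by
    intro χ hχ
    have hr := gap K (yA a X) (kA a X) (t ^ 2) (8 * C1) hk1 hxle hT hEq (by linarith) (by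
      rw [hst, htd, show 2 * (8 * C1) = 16 * C1 by ring]
      have := Real.exp_pos (-(16 * C1))
      linarith) (by linarith) (by rw [show 2 * (8 * C1) = 16 * C1 by ring]; exact hp2) χ hχ
    rw [tiny_sum K (yA a X) (fun c => χ c), tiny_card, mul_comm]
    exact hr.le
  have hcard : ((PA a X).card : ℝ) / 4 ≤ (tiny K (yA a X)).card := by
    rw [tiny_card]
    refine sum_large (PP (yA a X)) (kA a X) hk1 (fun p => ((U K p).card : ℝ))
      (fun p _ => Nat.cast_nonneg _) (by rw [← total]; exact hT) ?_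
    have h1 : Real.exp (-(16 * C1)) * ((PP (yA a X)).card : ℝ) ≤ (PP (yA a X)).card := by
      have h2 : Real.exp (-(16 * C1)) ≤ 1 := Real.exp_le_one_iff.2 (by linarith)
      have h3 : (0 : ℝ) ≤ (PP (yA a X)).card := by positivity
      nlinarith
    have h4 : 8 * (kA a X : ℝ) ^ 2 ≤ Real.exp (-(16 * C1)) * ((PP (yA a X)).card : ℝ) := hp2
    nlinarith
  have hlogd : Real.log X - 2 ≤ Real.log d := by
    have h1 : Real.log ((X : ℝ) / 4) ≤ Real.log d := Real.log_le_log (by positivity) hd4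
    rw [Real.log_div (by positivity) (by norm_num)] at h1
    have h4' : Real.log 4 ≤ 2 := by
      rw [show (4 : ℝ) = 2 ^ 2 by norm_num, Real.log_pow]
      have := Real.log_two_lt_d9
      push_cast
      linarith
    linarith
  have hlog4 : 4 ≤ Real.log d := by
    have := hX4 X hXd
    linarith
  have hll : 0 < Real.log (Real.log d) := Real.log_pos (by linarith)
  have hkinv : Real.log (Real.log d) / Real.log d ≤ 1 / kA a X := by
    rw [div_le_div_iff₀ (by linarith) (by linarith), one_mul]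
    rw [le_div_iff₀ hll] at hk
    nlinarith
  have hcard0 : (0 : ℝ) ≤ (tiny K (yA a X)).card := by positivity
  refine ⟨yA a X, hy, fun χ hχ => ?_, fun H c hH => ?_⟩
  · refine (hgap χ hχ).trans ?_
    refine mul_le_mul_of_nonneg_right ?_ hcard0
    have h1 : C * Real.log (Real.log d) / Real.log d ≤ 8 * C1 / kA a X := by
      calc C * Real.log (Real.log d) / Real.log d = C * (Real.log (Real.log d) / Real.log d) := by
            ring
        _ ≤ C * (1 / kA a X) := mul_le_mul_of_nonneg_left hkinv hC.le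
        _ ≤ (8 * C1) * (1 / kA a X) := by
            refine mul_le_mul_of_nonneg_right (by linarith) (by positivity)
        _ = 8 * C1 / kA a X := by ring
    linarith
  · have h1 := coset_bound K (yA a X) (8 * C1 / kA a X) hgap H c hH
    have h2 : C1 * (PA a X).card ≤
        (kA a X : ℝ) * ((tiny K (yA a X)).filter (fun P => c⁻¹ * ClassGroup.mk0 P ∉ H)).card := by
      have h3 : (kA a X : ℝ) * (8 * C1 / kA a X * (tiny K (yA a X)).card) =
          8 * C1 * (tiny K (yA a X)).card := by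
        field_simp
      have h4 := mul_le_mul_of_nonneg_left h1 (by linarith : (0 : ℝ) ≤ kA a X)
      rw [h3] at h4
      nlinarith
    have h5 : (kA a X : ℝ) * (C * (Real.log d) ^ (a - 1)) ≤
        kA a X * ((tiny K (yA a X)).filter (fun P => c⁻¹ * ClassGroup.mk0 P ∉ H)).card := by
      refine le_trans ?_ h2
      linarith
    exact le_of_mul_le_mul_left h5 (by linarith)

end Pool.Agent.Q162.RU
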